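import Pool.Agent.Y85.UT.Weighted

set_option autoImplicit false

/-!
# Union-closed families in which large traces have small intersections: the theorem with weights
-/

namespace Pool.Agent.Y85.UT

open Finset

variable {α : Type*} [DecidableEq α]

lemma tops_sub (F : Finset (Finset α)) : tops F ⊆ F.sup id := filter_subset _ _

theorem strict_weights (F : Finset (Finset α)) (hne : F.Nonempty)
    (hU : ∀ X ∈ F, ∀ Y ∈ F, X ∪ Y ∈ F)
    (hsep : ∀ x ∈ F.sup id, ∀ y ∈ F.sup id, x ≠ y →
      ∃ S ∈ F, (x ∈ S ∧ y ∉ S) ∨ (y ∈ S ∧ x ∉ S))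
    (hpow : F ≠ (F.sup id).powerset)
    (w : α → ℝ) (hw : ∀ i ∈ tops F, 0 ≤ w i)
    (hc : (0 < ∑ i ∈ tops F, w i ∧ ∀ i ∈ tops F, 4 * w i ≤ ∑ i ∈ tops F, w i) ∨
      ∀ i ∈ tops F, w i = 1)
    (hI : ∀ X ∈ F, ∀ Y ∈ F, ¬ X ⊆ Y → ¬ Y ⊆ X →
      ∑ i ∈ tops F, w i < 2 * ∑ i ∈ tops F \ X, w i →
      ∑ i ∈ tops F, w i < 2 * ∑ i ∈ tops F \ Y, w i →
      #(tops F \ (X ∪ Y)) ≤ 1 ∨ 4 * ∑ i ∈ tops F \ (X ∪ Y), w i ≤ ∑ i ∈ tops F, w i) :
    ∃ x ∈ tops F, #F < 2 * #(F.filter fun A => x ∈ A) := by
  classical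
  rcases hc with ⟨h0, hq⟩ | hone
  · -- positive weights
    set N := (tops F).filter fun i => 0 < w i with hN
    have hNs : N ⊆ tops F := filter_subset _ _
    have hsum : ∀ C : Finset α, ∑ i ∈ N \ C, w i = ∑ i ∈ tops F \ C, w i := by
      intro C
      apply Finset.sum_subset (sdiff_subset_sdiff hNs (Subset.refl _))
      intro i hi hi'
      obtain ⟨hi1, hi2⟩ := mem_sdiff.1 hi
      have h1 : ¬ 0 < w i := fun hc => hi' (mem_sdiff.2 ⟨mem_filter.2 ⟨hi1, hc⟩, hi2⟩)
      exact le_antisymm (not_lt.1 h1) (hw i hi1)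
    have hsum0 : ∑ i ∈ N, w i = ∑ i ∈ tops F, w i := by
      have := hsum ∅
      rwa [sdiff_empty, sdiff_empty] at this
    have hsup : (insert ∅ F).sup id = F.sup id := by
      rw [Finset.sup_insert]
      simp
    have hset : W.Setup (insert ∅ F) N w := by
      refine ⟨mem_insert_self _ _, ?_, ?_, ?_, ?_, ?_, ?_, ?_⟩
      · intro X hX Y hY
        rcases mem_insert.1 hX with rfl | hX
        · rwa [empty_union]
        rcases mem_insert.1 hY with rfl | hY
        · rw [union_empty]
          exact mem_insert_of_mem hX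
        exact mem_insert_of_mem (hU X hX Y hY)
      · rw [hsup]
        exact hNs.trans (tops_sub F)
      · rw [hsup]
        intro i hi e he hd
        exact (mem_filter.1 (hNs hi)).2 e he fun A hA => hd A (mem_insert_of_mem hA)
      · intro i hi
        exact (mem_filter.1 hi).2
      · rw [hsum0]
        exact h0
      · intro i hi
        rw [hsum0]
        exact hq i (hNs hi)
      · intro X hX Y hY h1 h2
        rcases mem_insert.1 hX with rfl | hX
        · exact absurd (empty_subset _) h1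
        rcases mem_insert.1 hY with rfl | hY
        · exact absurd (empty_subset _) h2
        rw [hsum0, hsum, hsum, hsum]
        intro h3 h4
        rcases hI X hX Y hY h1 h2 h3 h4 with h5 | h5
        · rcases Finset.eq_empty_or_nonempty (tops F \ (X ∪ Y)) with h7 | ⟨j, hj⟩
          · rw [h7, Finset.sum_empty]
            linarith
          · have h8 : tops F \ (X ∪ Y) = {j} := by
              rw [Finset.card_le_one] at h5
              ext x
              rw [mem_singleton]
              exact ⟨fun hx => h5 x hx j hj, fun hx => hx ▸ hj⟩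
            rw [h8, Finset.sum_singleton]
            exact hq j (mem_sdiff.1 hj).1
        · exact h5
    have ht := W.total hset
    by_contra hcon
    push Not at hcon
    rw [W.wt_sum] at ht
    have hnn : 0 ≤ ∑ i ∈ N, w i * ((#(insert ∅ F) : ℝ) -
        2 * #((insert ∅ F).filter fun A => i ∈ A)) := by
      refine Finset.sum_nonneg fun i hi => mul_nonneg (mem_filter.1 hi).2.le ?_
      have h1 := hcon i (hNs hi)
      have h2 : (insert ∅ F).filter (fun A => i ∈ A) = F.filter fun A => i ∈ A := by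
        rw [filter_insert, if_neg (notMem_empty i)]
      have h3 : #F ≤ #(insert ∅ F) := card_le_card (subset_insert _ _)
      rw [h2, sub_nonneg]
      exact_mod_cast h1.trans h3
    linarith
  · -- all weights one
    refine strict hne hU hsep hpow ?_
    have hsum : ∀ C : Finset α, ∑ i ∈ tops F \ C, w i = #(tops F \ C) := by
      intro C
      rw [Finset.sum_congr rfl fun i hi => hone i (mem_sdiff.1 hi).1]
      simp
    have hsum0 : ∑ i ∈ tops F, w i = #(tops F) := by
      rw [Finset.sum_congr rfl fun i hi => hone i hi]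
      simp
    intro X hX Y hY h1 h2 h3 h4
    have h5 := hI X hX Y hY h1 h2 (by rw [hsum0, hsum]; exact_mod_cast h3)
      (by rw [hsum0, hsum]; exact_mod_cast h4)
    rw [hsum0, hsum] at h5
    rcases h5 with h5 | h5
    · exact Or.inl h5
    · exact Or.inr (by exact_mod_cast h5)

/-- The special case of lattices without doubly reducible elements: if the union of any two
incomparable members is the union of the family or the largest member avoiding some element. -/
theorem strict_irreducible (F : Finset (Finset α)) (hne : F.Nonempty)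
    (hU : ∀ X ∈ F, ∀ Y ∈ F, X ∪ Y ∈ F)
    (hsep : ∀ x ∈ F.sup id, ∀ y ∈ F.sup id, x ≠ y →
      ∃ S ∈ F, (x ∈ S ∧ y ∉ S) ∨ (y ∈ S ∧ x ∉ S))
    (hpow : F ≠ (F.sup id).powerset)
    (hI : ∀ A ∈ F, ∀ B ∈ F, ¬ A ⊆ B → ¬ B ⊆ A → A ∪ B = F.sup id ∨
      ∃ e ∈ F.sup id, e ∉ A ∪ B ∧ ∀ C ∈ F, e ∉ C → C ⊆ A ∪ B) :
    ∃ x ∈ tops F, #F < 2 * #(F.filter fun A => x ∈ A) :=
  strict hne hU hsep hpow (inc_of_irreducible hI)

end Pool.Agent.Y85.UT
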