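import Mathlib

set_option autoImplicit false

/-!
# Union-closed families in which large traces have small intersections: basic facts
-/

namespace Pool.Agent.Y85.UT

open Finset

variable {α : Type*} [DecidableEq α]

/-- A union-closed family with the empty set, and a set `N` of elements, none dominating another,
such that each element is dominated by one of them. -/
structure Setup (F : Finset (Finset α)) (N : Finset α) : Prop where
  emp : ∅ ∈ F
  un : ∀ X ∈ F, ∀ Y ∈ F, X ∪ Y ∈ F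
  sub : N ⊆ F.sup id
  dom : ∀ e ∈ F.sup id, ∃ i ∈ N, ∀ A ∈ F, e ∈ A → i ∈ A
  anti : ∀ i ∈ N, ∀ j ∈ N, i ≠ j → ∃ A ∈ F, i ∈ A ∧ j ∉ A

/-- the largest member avoiding `e` -/
def mx (F : Finset (Finset α)) (e : α) : Finset α := (F.filter (fun A => e ∉ A)).sup id

lemma sup_mem' {F G : Finset (Finset α)} (he : ∅ ∈ F) (hu : ∀ X ∈ F, ∀ Y ∈ F, X ∪ Y ∈ F)
    (hG : G ⊆ F) : G.sup id ∈ F :=
  Finset.sup_induction (p := fun X => X ∈ F) he (fun a ha b hb => hu a ha b hb)
    (fun _ hb => hG hb)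

lemma mem_top {F : Finset (Finset α)} {A : Finset α} (hA : A ∈ F) {e : α} (he : e ∈ A) :
    e ∈ F.sup id := by
  rw [Finset.mem_sup]
  exact ⟨A, hA, he⟩

lemma sub_top {F : Finset (Finset α)} {A : Finset α} (hA : A ∈ F) : A ⊆ F.sup id :=
  fun _ he => mem_top hA he

lemma notMem_mx (F : Finset (Finset α)) (e : α) : e ∉ mx F e := by
  unfold mx
  rw [Finset.mem_sup]
  rintro ⟨A, hA, he⟩
  exact (mem_filter.1 hA).2 he

lemma sub_mx {F : Finset (Finset α)} {A : Finset α} (hA : A ∈ F) {e : α} (he : e ∉ A) :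
    A ⊆ mx F e := by
  intro x hx
  unfold mx
  rw [Finset.mem_sup]
  exact ⟨A, mem_filter.2 ⟨hA, he⟩, hx⟩

variable {F : Finset (Finset α)} {N : Finset α}

lemma Setup.mx_mem (h : Setup F N) (e : α) : mx F e ∈ F :=
  sup_mem' h.emp h.un (filter_subset _ _)

lemma Setup.top_mem (h : Setup F N) : F.sup id ∈ F := sup_mem' h.emp h.un (Subset.refl _)

lemma Setup.sdiff_mx (h : Setup F N) {i : α} (hi : i ∈ N) : N \ mx F i = {i} := by
  ext j
  rw [mem_sdiff, mem_singleton]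
  constructor
  · rintro ⟨hj, hji⟩
    by_contra hne
    obtain ⟨A, hA, hjA, hiA⟩ := h.anti j hj i hi hne
    exact hji (sub_mx hA hiA hjA)
  · rintro rfl
    exact ⟨hi, notMem_mx F j⟩

/-- if two members have the same trace on `N` and `e` separates them, then the largest member
avoiding `e` contains `N` -/
lemma Setup.sub_of_same (h : Setup F N) {A B : Finset α} (hA : A ∈ F) (hB : B ∈ F)
    (hAB : N \ A = N \ B) {e : α} (heA : e ∉ A) (heB : e ∈ B) : N ⊆ mx F e := by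
  intro i hi
  by_contra hie
  obtain ⟨i', hi', hd⟩ := h.dom e (mem_top hB heB)
  have h1 : ∀ C ∈ F, i ∈ C → e ∈ C := by
    intro C hC hiC
    by_contra heC
    exact hie (sub_mx hC heC hiC)
  have h2 : i = i' := by
    by_contra hne
    obtain ⟨C, hC, hiC, hi'C⟩ := h.anti i hi i' hi' hne
    exact hi'C (hd C hC (h1 C hC hiC))
  subst h2
  have h3 : i ∈ B := hd B hB heB
  have h4 : i ∉ A := fun hiA => heA (h1 A hA hiA)
  have h5 : i ∈ N \ B := hAB ▸ mem_sdiff.2 ⟨hi, h4⟩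
  exact (mem_sdiff.1 h5).2 h3

/-- members avoiding `N` are empty -/
lemma Setup.eq_empty (h : Setup F N) {A : Finset α} (hA : A ∈ F) (hNA : N \ A = N) : A = ∅ := by
  by_contra hne
  obtain ⟨e, he⟩ := Finset.nonempty_iff_ne_empty.2 hne
  obtain ⟨i, hi, hd⟩ := h.dom e (mem_top hA he)
  have : i ∈ N \ A := hNA.symm ▸ hi
  exact (mem_sdiff.1 this).2 (hd A hA he)

/-- an element in two members has a dominating element of `N` in both -/
lemma Setup.common (h : Setup F N) {A B : Finset α} (hA : A ∈ F) (hB : B ∈ F) {e : α}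
    (heA : e ∈ A) (heB : e ∈ B) : ∃ i ∈ N, i ∈ A ∧ i ∈ B := by
  obtain ⟨i, hi, hd⟩ := h.dom e (mem_top hA heA)
  exact ⟨i, hi, hd A hA heA, hd B hB heB⟩

/-- weight of a member -/
def wt (N A : Finset α) : ℤ := 2 * (#(N \ A) : ℤ) - #N

/-- the Cauchy-Schwarz bound -/
lemma cs (N : Finset α) (G : Finset (Finset α))
    (hG : ∀ A ∈ G, ∀ B ∈ G, A ≠ B → 4 * #(N \ (A ∪ B)) ≤ #N) :
    ∑ A ∈ G, wt N A ≤ #N := by
  classical
  set n : ℤ := (#N : ℤ) with hn
  have hn0 : 0 ≤ n := by positivity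
  set k : ℤ := (#G : ℤ) with hk
  have hk0 : 0 ≤ k := by positivity
  set S : ℤ := ∑ A ∈ G, (#(N \ A) : ℤ) with hS
  set T : ℤ := ∑ A ∈ G, wt N A with hT
  have hTS : T = 2 * S - k * n := by
    rw [hT, hS, hk]
    unfold wt
    rw [Finset.sum_sub_distrib, Finset.mul_sum, Finset.sum_const, nsmul_eq_mul]
  -- counting function
  set f : α → ℤ := fun i => ∑ A ∈ G, if i ∈ N \ A then 1 else 0 with hf
  have h1 : ∑ i ∈ N, f i = S := by
    rw [hf, hS]
    rw [Finset.sum_comm]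
    refine Finset.sum_congr rfl fun A _ => ?_
    rw [Finset.sum_ite_mem, Finset.inter_eq_right.2 sdiff_subset]
    simp
  have h2 : ∑ i ∈ N, f i ^ 2 = ∑ A ∈ G, ∑ B ∈ G, (#(N \ (A ∪ B)) : ℤ) := by
    have : ∀ i ∈ N, f i ^ 2 = ∑ A ∈ G, ∑ B ∈ G, if i ∈ N \ (A ∪ B) then (1:ℤ) else 0 := by
      intro i hi
      rw [hf, sq]
      simp only
      rw [Finset.sum_mul_sum]
      refine Finset.sum_congr rfl fun A _ => Finset.sum_congr rfl fun B _ => ?_
      by_cases hA : i ∈ A <;> by_cases hB : i ∈ B <;> simp [hA, hB, hi]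
    rw [Finset.sum_congr rfl this, Finset.sum_comm]
    refine Finset.sum_congr rfl fun A _ => ?_
    rw [Finset.sum_comm]
    refine Finset.sum_congr rfl fun B _ => ?_
    rw [Finset.sum_ite_mem, Finset.inter_eq_right.2 sdiff_subset]
    simp
  have h3 : S ^ 2 ≤ n * ∑ i ∈ N, f i ^ 2 := by
    rw [← h1]
    exact sq_sum_le_card_mul_sum_sq
  have h4 : 4 * ∑ i ∈ N, f i ^ 2 ≤ 4 * S + k * (k - 1) * n := by
    rw [h2, Finset.mul_sum]
    have h5 : ∀ A ∈ G, 4 * ∑ B ∈ G, (#(N \ (A ∪ B)) : ℤ) ≤ 4 * (#(N \ A) : ℤ) + (k - 1) * n := by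
      intro A hA
      rw [← Finset.add_sum_erase G _ hA, Finset.union_self, mul_add]
      have h6 : ∀ B ∈ G.erase A, 4 * (#(N \ (A ∪ B)) : ℤ) ≤ n := by
        intro B hB
        have := hG A hA B (mem_of_mem_erase hB) (ne_of_mem_erase hB).symm
        rw [hn]
        exact_mod_cast this
      have h7 : 4 * ∑ B ∈ G.erase A, (#(N \ (A ∪ B)) : ℤ) ≤ (k - 1) * n := by
        rw [Finset.mul_sum]
        calc ∑ B ∈ G.erase A, 4 * (#(N \ (A ∪ B)) : ℤ) ≤ ∑ _B ∈ G.erase A, n :=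
              Finset.sum_le_sum h6
          _ = (k - 1) * n := by
              rw [Finset.sum_const, card_erase_of_mem hA, nsmul_eq_mul, Nat.cast_sub]
              · rw [hk]; push_cast; ring
              · exact card_pos.2 ⟨A, hA⟩
      linarith
    calc ∑ A ∈ G, 4 * ∑ B ∈ G, (#(N \ (A ∪ B)) : ℤ)
        ≤ ∑ A ∈ G, (4 * (#(N \ A) : ℤ) + (k - 1) * n) := Finset.sum_le_sum h5
      _ = 4 * S + k * (k - 1) * n := by
          rw [Finset.sum_add_distrib, ← Finset.mul_sum, Finset.sum_const, nsmul_eq_mul]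
          ring
  have h5 : 4 * S ^ 2 ≤ n * (4 * S + k * (k - 1) * n) := by
    calc 4 * S ^ 2 ≤ 4 * (n * ∑ i ∈ N, f i ^ 2) := by linarith
      _ = n * (4 * ∑ i ∈ N, f i ^ 2) := by ring
      _ ≤ _ := mul_le_mul_of_nonneg_left h4 hn0
  have h6 : T ^ 2 + 2 * (k - 1) * n * T ≤ k * n ^ 2 := by
    have h7 : 2 * S = T + k * n := by linarith
    have h8 : (2 * S) ^ 2 ≤ n * (2 * (2 * S) + k * (k - 1) * n) := by linarith
    rw [h7] at h8
    nlinarith
  by_contra hlt
  push Not at hlt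
  have hG0 : 1 ≤ k := by
    by_contra hk1
    have hk2 : #G = 0 := by
      have : k = 0 := by omega
      rw [hk] at this
      exact_mod_cast this
    rw [Finset.card_eq_zero] at hk2
    rw [hT, hk2, Finset.sum_empty] at hlt
    omega
  nlinarith [mul_nonneg (sub_nonneg.2 hG0) hn0, mul_nonneg (mul_nonneg (sub_nonneg.2 hG0) hn0)
    (sub_nonneg.2 hlt.le)]

end Pool.Agent.Y85.UT
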