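import Pool.Agent.Y85.UT.Three

set_option autoImplicit false

/-!
# Union-closed families in which large traces have small intersections: assembly
-/

namespace Pool.Agent.Y85.UT

open Finset

variable {α : Type*} [DecidableEq α]

/-- The elements which are not dominated by another one: `i` in the union of `F` such that no
other element of the union lies in all members containing `i`. -/
def tops (F : Finset (Finset α)) : Finset α :=
  (F.sup id).filter fun i => ∀ e ∈ F.sup id, (∀ A ∈ F, i ∈ A → e ∈ A) → e = i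

variable {F : Finset (Finset α)} {N : Finset α}

lemma wt_sum (F : Finset (Finset α)) (N : Finset α) :
    ∑ A ∈ F, wt N A = ∑ i ∈ N, ((#F : ℤ) - 2 * #(F.filter fun A => i ∈ A)) := by
  classical
  have h1 : ∑ A ∈ F, (#(N \ A) : ℤ) = ∑ i ∈ N, (#(F.filter fun A => i ∉ A) : ℤ) := by
    have h2 : ∀ A ∈ F, (#(N \ A) : ℤ) = ∑ i ∈ N, if i ∉ A then 1 else 0 := by
      intro A _
      rw [← Finset.filter_notMem_eq_sdiff, card_filter]
      push_cast
      rfl
    rw [Finset.sum_congr rfl h2, Finset.sum_comm]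
    refine Finset.sum_congr rfl fun i _ => ?_
    rw [card_filter]
    push_cast
    rfl
  have h3 : ∀ i ∈ N, (#(F.filter fun A => i ∉ A) : ℤ) = #F - #(F.filter fun A => i ∈ A) := by
    intro i _
    have := Finset.card_filter_add_card_filter_not (s := F) (fun A => i ∈ A)
    omega
  unfold wt
  rw [Finset.sum_sub_distrib, ← Finset.mul_sum, h1, Finset.sum_congr rfl h3,
    Finset.sum_sub_distrib, Finset.sum_sub_distrib, Finset.sum_const, Finset.sum_const,
    ← Finset.mul_sum]
  simp only [nsmul_eq_mul]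
  ring

lemma total (h : Setup F N) (hI : Inc F N) (hN : N.Nonempty) : ∑ A ∈ F, wt N A < 0 ∨
    (∑ A ∈ F, wt N A = 0 ∧ (∀ A ∈ F, ∀ B ∈ F, N \ A = N \ B → A = B) ∧
      ∀ i ∈ N, ∃ A ∈ F, N \ A = N.erase i) := by
  have h0 := card_pos.2 hN
  have hc : #N = 1 ∨ #N = 2 ∨ #N = 3 ∨ 4 ≤ #N := by omega
  rcases hc with hc | hc | hc | hc
  · exact one h hc
  · exact two h hc
  · exact three h hc hI
  · exact Or.inl (four h hc hI)

theorem strict (hne : F.Nonempty)
    (hU : ∀ X ∈ F, ∀ Y ∈ F, X ∪ Y ∈ F)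
    (hsep : ∀ x ∈ F.sup id, ∀ y ∈ F.sup id, x ≠ y →
      ∃ S ∈ F, (x ∈ S ∧ y ∉ S) ∨ (y ∈ S ∧ x ∉ S))
    (hpow : F ≠ (F.sup id).powerset) (hI : Inc F (tops F)) :
    ∃ x ∈ tops F, #F < 2 * #(F.filter fun A => x ∈ A) := by
  classical
  set N := tops F with hN
  -- the family with the empty set
  have hsup : (insert ∅ F).sup id = F.sup id := by
    rw [Finset.sup_insert]
    simp
  have hdom : ∀ e ∈ F.sup id, ∃ i ∈ N, ∀ A ∈ F, e ∈ A → i ∈ A := by
    intro e he
    have hne' : ((F.sup id).filter fun i => ∀ A ∈ F, e ∈ A → i ∈ A).Nonempty :=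
      ⟨e, mem_filter.2 ⟨he, fun _ _ h => h⟩⟩
    obtain ⟨i, hi, hmax⟩ := exists_max_image _ (fun i => #(F.filter fun A => i ∈ A)) hne'
    obtain ⟨hiU, hid⟩ := mem_filter.1 hi
    refine ⟨i, mem_filter.2 ⟨hiU, ?_⟩, hid⟩
    intro e' he' hd'
    by_contra hne''
    have h1 := hmax e' (mem_filter.2 ⟨he', fun A hA heA => hd' A hA (hid A hA heA)⟩)
    have h2 : (F.filter fun A => i ∈ A) ⊆ F.filter fun A => e' ∈ A := by
      intro A hA
      obtain ⟨hAF, hiA⟩ := mem_filter.1 hA
      exact mem_filter.2 ⟨hAF, hd' A hAF hiA⟩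
    have h3 := Finset.eq_of_subset_of_card_le h2 h1
    obtain ⟨S, hS, hS'⟩ := hsep e' he' i hiU hne''
    rcases hS' with ⟨h4, h5⟩ | ⟨h4, h5⟩
    · have : S ∈ F.filter fun A => e' ∈ A := mem_filter.2 ⟨hS, h4⟩
      rw [← h3] at this
      exact h5 (mem_filter.1 this).2
    · exact h5 (hd' S hS h4)
  have hset : Setup (insert ∅ F) N := by
    refine ⟨mem_insert_self _ _, ?_, ?_, ?_, ?_⟩
    · intro X hX Y hY
      rcases mem_insert.1 hX with rfl | hX
      · rwa [empty_union]
      rcases mem_insert.1 hY with rfl | hY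
      · rw [union_empty]
        exact mem_insert_of_mem hX
      exact mem_insert_of_mem (hU X hX Y hY)
    · rw [hsup]
      exact filter_subset _ _
    · rw [hsup]
      intro e he
      obtain ⟨i, hi, hd⟩ := hdom e he
      refine ⟨i, hi, fun A hA heA => ?_⟩
      rcases mem_insert.1 hA with rfl | hA
      · exact absurd heA (notMem_empty _)
      · exact hd A hA heA
    · intro i hi j hj hij
      by_contra hcon
      push Not at hcon
      have h1 := (mem_filter.1 hi).2 j (mem_filter.1 hj).1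
        (fun A hA hiA => hcon A (mem_insert_of_mem hA) hiA)
      exact hij h1.symm
  have hInc : Inc (insert ∅ F) N := by
    intro A hA B hB h1 h2 h3 h4
    rcases mem_insert.1 hA with rfl | hA
    · exact absurd (empty_subset _) h1
    rcases mem_insert.1 hB with rfl | hB
    · exact absurd (empty_subset _) h2
    exact hI A hA B hB h1 h2 h3 h4
  have hNne : N.Nonempty := by
    rw [nonempty_iff_ne_empty]
    intro hc
    have h1 : F.sup id = ∅ := by
      rw [Finset.eq_empty_iff_forall_notMem]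
      intro e he
      obtain ⟨i, hi, _⟩ := hdom e he
      rw [hc] at hi
      exact absurd hi (notMem_empty _)
    have h2 : ∀ A ∈ F, A = ∅ := fun A hA => subset_empty.1 (h1 ▸ sub_top hA)
    apply hpow
    rw [h1, powerset_empty]
    ext A
    rw [mem_singleton]
    constructor
    · exact h2 A
    · rintro rfl
      obtain ⟨B, hB⟩ := hne
      exact (h2 B hB) ▸ hB
  have ht := total hset hInc hNne
  by_contra hcon
  push Not at hcon
  have hnn : 0 ≤ ∑ A ∈ F, wt N A := by
    rw [wt_sum]
    refine Finset.sum_nonneg fun i hi => ?_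
    have := hcon i hi
    omega
  by_cases h0 : ∅ ∈ F
  · rw [insert_eq_of_mem h0] at ht hset
    rcases ht with ht | ⟨_, hinj, hsing⟩
    · omega
    · exact hpow (powerset_of hset hsep hinj hsing)
  · have h1 : ∑ A ∈ insert ∅ F, wt N A = #N + ∑ A ∈ F, wt N A := by
      rw [Finset.sum_insert h0]
      congr 1
      unfold wt
      rw [sdiff_empty]
      ring
    have h2 := card_pos.2 hNne
    rcases ht with ht | ⟨ht, _⟩ <;> omega

/-- The largest member avoiding some element misses at most one undominated element. -/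
lemma inc_of_irreducible
    (hI : ∀ A ∈ F, ∀ B ∈ F, ¬ A ⊆ B → ¬ B ⊆ A → A ∪ B = F.sup id ∨
      ∃ e ∈ F.sup id, e ∉ A ∪ B ∧ ∀ C ∈ F, e ∉ C → C ⊆ A ∪ B) : Inc F (tops F) := by
  intro A hA B hB h1 h2 _ _
  left
  rcases hI A hA B hB h1 h2 with h | ⟨e, he, heAB, hmax⟩
  · rw [h]
    have : tops F \ F.sup id = ∅ := by
      rw [sdiff_eq_empty_iff_subset]
      exact filter_subset _ _
    rw [this]
    simp
  · rw [card_le_one]
    intro x hx y hy
    have key : ∀ z ∈ tops F \ (A ∪ B), e = z := by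
      intro z hz
      obtain ⟨hz1, hz2⟩ := mem_sdiff.1 hz
      refine (mem_filter.1 hz1).2 e he ?_
      intro C hC hzC
      by_contra heC
      exact hz2 (hmax C hC heC hzC)
    rw [← key x hx, ← key y hy]

end Pool.Agent.Y85.UT
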