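import Pool.Agent.Y85.UT.Basic

set_option autoImplicit false

/-!
# Union-closed families in which large traces have small intersections: the inequality
-/

namespace Pool.Agent.Y85.UT

open Finset

variable {α : Type*} [DecidableEq α] {F : Finset (Finset α)} {N : Finset α}

/-- incomparable members missing more than half of `N` have a union missing little of it -/
def Inc (F : Finset (Finset α)) (N : Finset α) : Prop :=
  ∀ A ∈ F, ∀ B ∈ F, ¬ A ⊆ B → ¬ B ⊆ A → #N < 2 * #(N \ A) → #N < 2 * #(N \ B) →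
    #(N \ (A ∪ B)) ≤ 1 ∨ 4 * #(N \ (A ∪ B)) ≤ #N

/-- the members missing more than half of `N` -/
def big (F : Finset (Finset α)) (N : Finset α) : Finset (Finset α) :=
  F.filter fun A => #N < 2 * #(N \ A)

open Classical in
/-- members with a larger member of the same trace -/
noncomputable def rep (F : Finset (Finset α)) (N : Finset α) : Finset (Finset α) :=
  (big F N).filter fun A => ∃ B ∈ F, A ⊂ B ∧ N \ B = N \ A

/-- the chosen element -/
lemma exists_el (_h : Setup F N) (hn : 2 ≤ #N) (hI : Inc F N) {A : Finset α} (hA : A ∈ rep F N) :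
    ∃ e, e ∉ A ∧ (∃ B ∈ F, e ∈ B ∧ N \ A = N \ B) ∧ ∀ A' ∈ big F N, A ⊂ A' → e ∈ A' := by
  classical
  obtain ⟨hAb, B₀, hB₀, hAB₀, hN₀⟩ := mem_filter.1 hA
  obtain ⟨hAF, hAbig⟩ := mem_filter.1 hAb
  have hne : (F.filter fun B => A ⊂ B ∧ N \ B = N \ A).Nonempty :=
    ⟨B₀, mem_filter.2 ⟨hB₀, hAB₀, hN₀⟩⟩
  obtain ⟨B, hB, hmin⟩ := exists_min_image _ (fun B => #B) hne
  obtain ⟨hBF, hAB, hNB⟩ := mem_filter.1 hB
  obtain ⟨e, heB, heA⟩ := exists_of_ssubset hAB
  refine ⟨e, heA, ⟨B, hBF, heB, hNB.symm⟩, ?_⟩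
  intro A' hA' hAA'
  obtain ⟨hA'F, hA'big⟩ := mem_filter.1 hA'
  have h1 : N \ (B ∪ A') = N \ A' := by
    have : N \ A' ⊆ N \ B := by
      rw [hNB]
      exact sdiff_subset_sdiff (Subset.refl _) hAA'.subset
    ext x
    have h2 := @this x
    simp only [mem_sdiff, mem_union] at h2 ⊢
    tauto
  have h2 : B ⊆ A' ∨ A' ⊆ B := by
    by_contra hcon
    rw [not_or] at hcon
    have h3 := hI B hBF A' hA'F hcon.1 hcon.2 (by rw [hNB]; exact hAbig) hA'big
    rw [h1] at h3
    omega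
  rcases h2 with h2 | h2
  · exact h2 heB
  · have h3 : N \ A' = N \ A := by
      apply Subset.antisymm
      · exact sdiff_subset_sdiff (Subset.refl _) hAA'.subset
      · rw [← hNB]
        exact sdiff_subset_sdiff (Subset.refl _) h2
    have h4 := hmin A' (mem_filter.2 ⟨hA'F, hAA', h3⟩)
    rw [Finset.eq_of_subset_of_card_le h2 h4]
    exact heB

/-- the proper members containing `N` -/
def full (F : Finset (Finset α)) (N : Finset α) : Finset (Finset α) :=
  F.filter fun M => N ⊆ M ∧ M ≠ F.sup id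

/-- The map from the members with a larger member of the same trace to the proper members
containing `N`; its fibres are antichains. -/
lemma exists_map (h : Setup F N) (hn : 2 ≤ #N) (hI : Inc F N) :
    ∃ φ : Finset α → Finset α, (∀ A ∈ rep F N, φ A ∈ full F N) ∧
      ∀ A ∈ rep F N, ∀ A' ∈ rep F N, A ⊂ A' → φ A ≠ φ A' := by
  classical
  have hex := fun A (hA : A ∈ rep F N) => exists_el h hn hI hA
  have hne : Nonempty α := by
    obtain ⟨x, _⟩ := Finset.card_pos.1 (show 0 < #N by omega)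
    exact ⟨x⟩
  choose! g hg using hex
  refine ⟨fun A => mx F (g A), ?_, ?_⟩
  · intro A hA
    obtain ⟨h1, ⟨B, hBF, heB, hNB⟩, h3⟩ := hg A hA
    have hAF : A ∈ F := (mem_filter.1 (mem_filter.1 hA).1).1
    refine mem_filter.2 ⟨h.mx_mem _, h.sub_of_same hAF hBF hNB h1 heB, ?_⟩
    intro hc
    have hc' : mx F (g A) = F.sup id := hc
    exact notMem_mx F (g A) (by rw [hc']; exact mem_top hBF heB)
  · intro A hA A' hA' hAA' heq
    obtain ⟨h1, _, h3⟩ := hg A hA
    obtain ⟨h1', _, _⟩ := hg A' hA'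
    have hA'b : A' ∈ big F N := (mem_filter.1 hA').1
    have hA'F : A' ∈ F := (mem_filter.1 hA'b).1
    have h4 : g A ∈ A' := h3 A' hA'b hAA'
    have h5 : g A ∈ mx F (g A') := sub_mx hA'F h1' h4
    simp only at heq
    rw [← heq] at h5
    exact notMem_mx _ _ h5

/-- incomparable members -/
lemma inc4 (hn : 4 ≤ #N) (hI : Inc F N) {A B : Finset α} (hA : A ∈ big F N) (hB : B ∈ big F N)
    (h1 : ¬ A ⊆ B) (h2 : ¬ B ⊆ A) : 4 * #(N \ (A ∪ B)) ≤ #N := by
  obtain ⟨hAF, hAb⟩ := mem_filter.1 hA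
  obtain ⟨hBF, hBb⟩ := mem_filter.1 hB
  rcases hI A hAF B hBF h1 h2 hAb hBb with h | h <;> omega

lemma rep_sum (h : Setup F N) (hn : 4 ≤ #N) (hI : Inc F N) :
    ∑ A ∈ rep F N, wt N A ≤ #N * #(full F N) := by
  classical
  obtain ⟨φ, h1, h2⟩ := exists_map h (by omega) hI
  rw [← Finset.sum_fiberwise_of_maps_to h1]
  calc ∑ M ∈ full F N, ∑ A ∈ (rep F N).filter (fun A => φ A = M), wt N A
      ≤ ∑ _M ∈ full F N, (#N : ℤ) := by
        refine Finset.sum_le_sum fun M _ => cs N _ ?_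
        intro A hA B hB hAB
        obtain ⟨hA1, hA2⟩ := mem_filter.1 hA
        obtain ⟨hB1, hB2⟩ := mem_filter.1 hB
        refine inc4 hn hI (mem_filter.1 hA1).1 (mem_filter.1 hB1).1 ?_ ?_
        · intro hc
          exact h2 A hA1 B hB1 (hc.ssubset_of_ne hAB) (hA2.trans hB2.symm)
        · intro hc
          exact h2 B hB1 A hA1 (hc.ssubset_of_ne hAB.symm) (hB2.trans hA2.symm)
    _ = #N * #(full F N) := by
        rw [Finset.sum_const, nsmul_eq_mul]
        ring

lemma nonrep_inc {A B : Finset α} (hA : A ∈ big F N \ rep F N) (hB : B ∈ big F N)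
    (hAB : A ≠ B) (hc : #(N \ A) = #(N \ B)) : ¬ A ⊆ B := by
  classical
  intro hs
  obtain ⟨hA1, hA2⟩ := mem_sdiff.1 hA
  apply hA2
  refine mem_filter.2 ⟨hA1, B, (mem_filter.1 hB).1, hs.ssubset_of_ne hAB, ?_⟩
  exact Finset.eq_of_subset_of_card_le (sdiff_subset_sdiff (Subset.refl _) hs) hc.le

lemma nonrep_sum (hn : 4 ≤ #N) (hI : Inc F N) :
    ∑ A ∈ big F N \ rep F N, wt N A ≤ #N * (#N - #N / 2 : ℕ) := by
  classical
  have h1 : ∀ A ∈ big F N \ rep F N, #(N \ A) ∈ Ioc (#N / 2) #N := by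
    intro A hA
    have h2 := (mem_filter.1 (mem_sdiff.1 hA).1).2
    have h3 : #(N \ A) ≤ #N := card_le_card sdiff_subset
    rw [mem_Ioc]
    omega
  rw [← Finset.sum_fiberwise_of_maps_to h1]
  calc ∑ s ∈ Ioc (#N / 2) #N, ∑ A ∈ (big F N \ rep F N).filter (fun A => #(N \ A) = s), wt N A
      ≤ ∑ _s ∈ Ioc (#N / 2) #N, (#N : ℤ) := by
        refine Finset.sum_le_sum fun M _ => cs N _ ?_
        intro A hA B hB hAB
        obtain ⟨hA1, hA2⟩ := mem_filter.1 hA
        obtain ⟨hB1, hB2⟩ := mem_filter.1 hB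
        exact inc4 hn hI (mem_sdiff.1 hA1).1 (mem_sdiff.1 hB1).1
          (nonrep_inc hA1 (mem_sdiff.1 hB1).1 hAB (hA2.trans hB2.symm))
          (nonrep_inc hB1 (mem_sdiff.1 hA1).1 hAB.symm (hB2.trans hA2.symm))
    _ = #N * (#N - #N / 2 : ℕ) := by
        rw [Finset.sum_const, nsmul_eq_mul, Nat.card_Ioc]
        ring

/-- the union, the proper members containing `N` and the largest members avoiding the elements
of `N` -/
def spec (F : Finset (Finset α)) (N : Finset α) : Finset (Finset α) :=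
  insert (F.sup id) (full F N) ∪ N.image (mx F)

lemma spec_sub (h : Setup F N) (hn : 2 ≤ #N) : spec F N ⊆ F \ big F N := by
  classical
  refine union_subset (insert_subset ?_ ?_) ?_
  · refine mem_sdiff.2 ⟨h.top_mem, fun hc => ?_⟩
    have := (mem_filter.1 hc).2
    rw [Finset.sdiff_eq_empty_iff_subset.2 h.sub] at this
    simp at this
  · intro A hA
    obtain ⟨hAF, hNA, _⟩ := mem_filter.1 hA
    refine mem_sdiff.2 ⟨hAF, fun hc => ?_⟩
    have := (mem_filter.1 hc).2
    rw [Finset.sdiff_eq_empty_iff_subset.2 hNA] at this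
    simp at this
  · intro A hA
    obtain ⟨i, hi, rfl⟩ := mem_image.1 hA
    refine mem_sdiff.2 ⟨h.mx_mem _, fun hc => ?_⟩
    have := (mem_filter.1 hc).2
    rw [h.sdiff_mx hi] at this
    simp at this
    omega

lemma mx_inj (h : Setup F N) : Set.InjOn (mx F) (N : Set α) := by
  intro i hi j hj hij
  have h1 := h.sdiff_mx (mem_coe.1 hi)
  have h2 := h.sdiff_mx (mem_coe.1 hj)
  rw [hij, h2] at h1
  exact (singleton_injective h1).symm

lemma spec_sum (h : Setup F N) :
    ∑ A ∈ spec F N, wt N A = -(#N * #(full F N) : ℤ) - #N + #N * (2 - #N) := by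
  classical
  have htf : F.sup id ∉ full F N := fun hc => (mem_filter.1 hc).2.2 rfl
  have hmd : Disjoint (insert (F.sup id) (full F N)) (N.image (mx F)) := by
    rw [Finset.disjoint_left]
    intro A hA hA'
    obtain ⟨i, hi, rfl⟩ := mem_image.1 hA'
    have h1 : N ⊆ mx F i := by
      rcases mem_insert.1 hA with h2 | h2
      · rw [h2]; exact h.sub
      · exact (mem_filter.1 h2).2.1
    exact notMem_mx F i (h1 hi)
  unfold spec
  rw [Finset.sum_union hmd, Finset.sum_insert htf, Finset.sum_image (mx_inj h)]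
  have h3 : wt N (F.sup id) = -#N := by
    unfold wt
    rw [Finset.sdiff_eq_empty_iff_subset.2 h.sub]
    simp
  have h4 : ∑ A ∈ full F N, wt N A = -(#N * #(full F N) : ℤ) := by
    rw [Finset.sum_congr rfl (g := fun _ => -(#N : ℤ))]
    · rw [Finset.sum_const, nsmul_eq_mul]; ring
    · intro A hA
      unfold wt
      rw [Finset.sdiff_eq_empty_iff_subset.2 (mem_filter.1 hA).2.1]
      simp
  have h5 : ∑ i ∈ N, wt N (mx F i) = #N * (2 - #N) := by
    rw [Finset.sum_congr rfl (g := fun _ => (2 - #N : ℤ))]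
    · rw [Finset.sum_const, nsmul_eq_mul]
    · intro i hi
      unfold wt
      rw [h.sdiff_mx hi]
      simp
  rw [h3, h4, h5]
  ring

lemma wt_small {A : Finset α} (hA : A ∈ F \ big F N) : wt N A ≤ 0 := by
  obtain ⟨hAF, hAb⟩ := mem_sdiff.1 hA
  have : ¬ #N < 2 * #(N \ A) := fun hc => hAb (mem_filter.2 ⟨hAF, hc⟩)
  unfold wt
  omega

/-- the members missing at most half of `N` -/
lemma small_sum (h : Setup F N) (hn : 2 ≤ #N) :
    ∑ A ∈ F \ big F N, wt N A ≤ -(#N * #(full F N) : ℤ) - #N + #N * (2 - #N) := by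
  classical
  rw [← Finset.sum_sdiff (spec_sub h hn), spec_sum h]
  have h1 : ∑ A ∈ (F \ big F N) \ spec F N, wt N A ≤ 0 :=
    Finset.sum_nonpos fun A hA => wt_small (mem_sdiff.1 hA).1
  linarith

lemma small_sum_one (h : Setup F N) (hn : 2 ≤ #N) {B : Finset α} (hB : B ∈ F \ big F N)
    (hB' : B ∉ spec F N) :
    ∑ A ∈ F \ big F N, wt N A ≤ -(#N * #(full F N) : ℤ) - #N + #N * (2 - #N) + wt N B := by
  classical
  rw [← Finset.sum_sdiff (spec_sub h hn), spec_sum h,
    ← Finset.add_sum_erase _ _ (mem_sdiff.2 ⟨hB, hB'⟩)]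
  have h1 : ∑ A ∈ ((F \ big F N) \ spec F N).erase B, wt N A ≤ 0 :=
    Finset.sum_nonpos fun A hA => wt_small (mem_sdiff.1 (mem_of_mem_erase hA)).1
  linarith

/-- the inequality for `4 ≤ #N` -/
theorem four (h : Setup F N) (hn : 4 ≤ #N) (hI : Inc F N) : ∑ A ∈ F, wt N A < 0 := by
  classical
  have hb : big F N ⊆ F := filter_subset _ _
  have hr : rep F N ⊆ big F N := filter_subset _ _
  rw [← Finset.sum_sdiff hb, ← Finset.sum_sdiff hr]
  have h1 := rep_sum h hn hI
  have h2 := nonrep_sum (F := F) hn hI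
  have h3 := small_sum h (by omega)
  have h4 : (#N : ℤ) * ((#N - #N / 2 : ℕ) : ℤ) < #N * (#N - 1) := by
    apply mul_lt_mul_of_pos_left
    · omega
    · omega
  nlinarith

end Pool.Agent.Y85.UT
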