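import Pool.Agent.Y85.UT.Main

set_option autoImplicit false

/-!
# Union-closed families in which large traces have small intersections: small `N`, equality
-/

namespace Pool.Agent.Y85.UT

open Finset

variable {α : Type*} [DecidableEq α] {F : Finset (Finset α)} {N : Finset α}

/-- equality is only possible for power sets -/
lemma powerset_of (h : Setup F N)
    (hsep : ∀ x ∈ F.sup id, ∀ y ∈ F.sup id, x ≠ y →
      ∃ S ∈ F, (x ∈ S ∧ y ∉ S) ∨ (y ∈ S ∧ x ∉ S))
    (hinj : ∀ A ∈ F, ∀ B ∈ F, N \ A = N \ B → A = B)
    (hsing : ∀ i ∈ N, ∃ A ∈ F, N \ A = N.erase i) : F = (F.sup id).powerset := by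
  classical
  choose! K hKF hK using hsing
  have hKi : ∀ i ∈ N, ∀ j ∈ N, (j ∈ K i ↔ j = i) := by
    intro i hi j hj
    have h1 : j ∈ N \ K i ↔ j ∈ N.erase i := by rw [hK i hi]
    rw [mem_sdiff, mem_erase] at h1
    tauto
  -- the union of the `K i`
  have hUK : (N.image K).sup id = F.sup id := by
    refine hinj _ (sup_mem' h.emp h.un ?_) _ h.top_mem ?_
    · intro A hA
      obtain ⟨i, hi, rfl⟩ := mem_image.1 hA
      exact hKF i hi
    · rw [Finset.sdiff_eq_empty_iff_subset.2 h.sub, Finset.sdiff_eq_empty_iff_subset]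
      intro i hi
      rw [Finset.mem_sup]
      exact ⟨K i, mem_image_of_mem _ hi, (hKi i hi i hi).2 rfl⟩
  have hUN : F.sup id ⊆ N := by
    intro e he
    obtain ⟨i, hi, hd⟩ := h.dom e he
    have he' : e ∈ (N.image K).sup id := hUK ▸ he
    rw [Finset.mem_sup] at he'
    obtain ⟨A, hA, heA⟩ := he'
    obtain ⟨j, hj, rfl⟩ := mem_image.1 hA
    have hij : i = j := (hKi j hj i hi).1 (hd _ (hKF j hj) heA)
    subst hij
    have h1 : ∀ B ∈ F, i ∈ B → e ∈ B := by
      intro B hB hiB
      have h2 : K i ∪ B = B := by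
        refine hinj _ (h.un _ (hKF i hi) _ hB) _ hB ?_
        ext x
        simp only [mem_sdiff, mem_union]
        constructor
        · rintro ⟨hx, hx'⟩
          exact ⟨hx, fun hc => hx' (Or.inr hc)⟩
        · rintro ⟨hx, hx'⟩
          refine ⟨hx, ?_⟩
          rintro (hc | hc)
          · have := (hKi i hi x hx).1 hc
            subst this
            exact hx' hiB
          · exact hx' hc
      rw [← h2]
      exact mem_union_left _ heA
    by_contra hcon
    obtain ⟨S, hS, hS'⟩ := hsep e he i (h.sub hi) (fun hc => hcon (hc ▸ hi))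
    rcases hS' with hS' | hS'
    · exact hS'.2 (hd S hS hS'.1)
    · exact hS'.2 (h1 S hS hS'.1)
  have hNU : F.sup id = N := Subset.antisymm hUN h.sub
  have hsg : ∀ i ∈ N, ({i} : Finset α) ∈ F := by
    intro i hi
    have : K i = {i} := by
      ext x
      rw [mem_singleton]
      constructor
      · intro hx
        exact (hKi i hi x (hUN (mem_top (hKF i hi) hx))).1 hx
      · rintro rfl
        exact (hKi x hi x hi).2 rfl
    rw [← this]
    exact hKF i hi
  ext S
  rw [mem_powerset]
  constructor
  · exact fun hS => sub_top hS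
  · intro hS
    have h1 : (S.image fun i => ({i} : Finset α)).sup id = S := by
      ext x
      rw [Finset.mem_sup]
      constructor
      · rintro ⟨A, hA, hx⟩
        obtain ⟨i, hi, rfl⟩ := mem_image.1 hA
        have : x = i := mem_singleton.1 hx
        rwa [this]
      · intro hx
        exact ⟨{x}, mem_image_of_mem _ hx, mem_singleton_self x⟩
    rw [← h1]
    refine sup_mem' h.emp h.un ?_
    intro A hA
    obtain ⟨i, hi, rfl⟩ := mem_image.1 hA
    exact hsg i (hUN (hS hi))

/-- `#N = 1` -/
theorem one (h : Setup F N) (hn : #N = 1) : ∑ A ∈ F, wt N A < 0 ∨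
    (∑ A ∈ F, wt N A = 0 ∧ (∀ A ∈ F, ∀ B ∈ F, N \ A = N \ B → A = B) ∧
      ∀ i ∈ N, ∃ A ∈ F, N \ A = N.erase i) := by
  classical
  obtain ⟨i, rfl⟩ := card_eq_one.1 hn
  have hi : i ∈ F.sup id := h.sub (mem_singleton_self i)
  have hne : F.sup id ≠ ∅ := ne_empty_of_mem hi
  have hex : ∀ A ∈ F, A ≠ ∅ → i ∈ A := by
    intro A hA hA0
    by_contra hc
    apply hA0
    refine h.eq_empty hA ?_
    ext x
    rw [mem_sdiff, mem_singleton]
    constructor
    · exact fun hx => hx.1
    · rintro rfl
      exact ⟨rfl, hc⟩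
  have hw1 : wt {i} (∅ : Finset α) = 1 := by simp [wt]
  have hw2 : ∀ A ∈ F, A ≠ ∅ → wt {i} A = -1 := by
    intro A hA hA0
    unfold wt
    rw [Finset.sdiff_eq_empty_iff_subset.2 (singleton_subset_iff.2 (hex A hA hA0))]
    simp
  have hsum : ∑ A ∈ F, wt {i} A = 2 - #F := by
    rw [← Finset.add_sum_erase F _ h.emp, hw1,
      Finset.sum_congr rfl (g := fun _ => (-1 : ℤ)) (fun A hA =>
        hw2 A (mem_of_mem_erase hA) (ne_of_mem_erase hA)), Finset.sum_const,
      card_erase_of_mem h.emp, nsmul_eq_mul, Nat.cast_sub (card_pos.2 ⟨_, h.emp⟩)]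
    push_cast
    ring
  have hF2 : 2 ≤ #F := by
    have : ({∅, F.sup id} : Finset (Finset α)) ⊆ F := by
      intro A hA
      rcases mem_insert.1 hA with rfl | hA
      · exact h.emp
      · rw [mem_singleton.1 hA]; exact h.top_mem
    have h2 := card_le_card this
    rwa [card_pair hne.symm] at h2
  rcases hF2.lt_or_eq with hlt | heq
  · left
    rw [hsum]
    omega
  · right
    refine ⟨by rw [hsum]; omega, ?_, ?_⟩
    · intro A hA B hB hAB
      have hF : F = {∅, F.sup id} := by
        symm
        apply Finset.eq_of_subset_of_card_le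
        · intro A hA
          rcases mem_insert.1 hA with rfl | hA
          · exact h.emp
          · rw [mem_singleton.1 hA]; exact h.top_mem
        · rw [card_pair hne.symm]; omega
      have key : ∀ A ∈ F, A = ∅ ∨ A = F.sup id := by
        intro A hA
        rw [hF] at hA
        rcases mem_insert.1 hA with h1 | h1
        · exact Or.inl h1
        · exact Or.inr (mem_singleton.1 h1)
      by_cases hA0 : A = ∅
      · by_cases hB0 : B = ∅
        · rw [hA0, hB0]
        · have h1 : i ∈ {i} \ B := by rw [← hAB, hA0]; simp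
          exact absurd (hex B hB hB0) (mem_sdiff.1 h1).2
      · by_cases hB0 : B = ∅
        · have h1 : i ∈ {i} \ A := by rw [hAB, hB0]; simp
          exact absurd (hex A hA hA0) (mem_sdiff.1 h1).2
        · rw [(key A hA).resolve_left hA0, (key B hB).resolve_left hB0]
    · intro j hj
      rw [mem_singleton.1 hj]
      refine ⟨F.sup id, h.top_mem, ?_⟩
      rw [Finset.sdiff_eq_empty_iff_subset.2 h.sub]
      simp

/-- `#N = 2` -/
theorem two (h : Setup F N) (hn : #N = 2) : ∑ A ∈ F, wt N A < 0 ∨
    (∑ A ∈ F, wt N A = 0 ∧ (∀ A ∈ F, ∀ B ∈ F, N \ A = N \ B → A = B) ∧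
      ∀ i ∈ N, ∃ A ∈ F, N \ A = N.erase i) := by
  classical
  have hne : F.sup id ≠ ∅ := by
    obtain ⟨x, hx⟩ := Finset.card_pos.1 (show 0 < #N by omega)
    exact ne_empty_of_mem (h.sub hx)
  have hle : ∀ A, #(N \ A) ≤ 2 := fun A => hn ▸ card_le_card sdiff_subset
  -- the members containing `N`
  set P := F.filter fun A => N ⊆ A with hP
  have hsum : ∑ A ∈ F, wt N A = 2 - 2 * #P := by
    have hPF : P ⊆ F.erase ∅ := by
      intro A hA
      obtain ⟨hAF, hNA⟩ := mem_filter.1 hA
      refine mem_erase.2 ⟨?_, hAF⟩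
      rintro rfl
      rw [Finset.subset_empty.1 hNA] at hn
      simp at hn
    rw [← Finset.add_sum_erase F _ h.emp, ← Finset.sum_sdiff hPF]
    have h1 : wt N (∅ : Finset α) = 2 := by simp [wt, hn]
    have h2 : ∑ A ∈ P, wt N A = -2 * #P := by
      rw [Finset.sum_congr rfl (g := fun _ => (-2 : ℤ))]
      · rw [Finset.sum_const, nsmul_eq_mul]; ring
      · intro A hA
        unfold wt
        rw [Finset.sdiff_eq_empty_iff_subset.2 (mem_filter.1 hA).2, hn]
        simp
    have h3 : ∑ A ∈ (F.erase ∅) \ P, wt N A = 0 := by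
      refine Finset.sum_eq_zero fun A hA => ?_
      obtain ⟨hA1, hA2⟩ := mem_sdiff.1 hA
      have hAF := mem_of_mem_erase hA1
      have hA0 := ne_of_mem_erase hA1
      have h4 : #(N \ A) ≠ 2 := by
        intro hc
        apply hA0
        refine h.eq_empty hAF (Finset.eq_of_subset_of_card_le sdiff_subset ?_)
        omega
      have h5 : #(N \ A) ≠ 0 := by
        intro hc
        apply hA2
        refine mem_filter.2 ⟨hAF, ?_⟩
        rwa [card_eq_zero, sdiff_eq_empty_iff_subset] at hc
      have h6 := hle A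
      unfold wt
      rw [hn]
      omega
    rw [h1, h2, h3]
    ring
  have hUP : F.sup id ∈ P := mem_filter.2 ⟨h.top_mem, h.sub⟩
  have hP1 : 1 ≤ #P := card_pos.2 ⟨_, hUP⟩
  rcases hP1.lt_or_eq with hlt | heq
  · left
    rw [hsum]
    omega
  · right
    refine ⟨by rw [hsum, ← heq]; norm_num, ?_, ?_⟩
    · have key : ∀ A ∈ F, N ⊆ A → A = F.sup id := by
        intro A hA hNA
        obtain ⟨B, hB⟩ := card_eq_one.1 heq.symm
        have h1 : A ∈ P := mem_filter.2 ⟨hA, hNA⟩
        rw [hB, mem_singleton] at h1
        rw [hB, mem_singleton] at hUP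
        rw [h1, hUP]
      -- one inclusion
      have main : ∀ A ∈ F, ∀ B ∈ F, N \ A = N \ B → A ⊆ B := by
        intro A hA B hB hAB
        by_cases hA2 : N \ A = N
        · rw [h.eq_empty hA hA2]; exact empty_subset _
        by_cases hA0 : N ⊆ A
        · have hB0 : N ⊆ B := by
            rw [← sdiff_eq_empty_iff_subset] at hA0 ⊢
            rw [← hAB, hA0]
          rw [key A hA hA0, key B hB hB0]
        -- now the trace is one element
        have hc1 : #(N \ A) = 1 := by
          have h1 := hle A
          have h2 : #(N \ A) ≠ 2 := fun hc =>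
            hA2 (Finset.eq_of_subset_of_card_le sdiff_subset (by omega))
          have h3 : #(N \ A) ≠ 0 := by
            rwa [Ne, card_eq_zero, sdiff_eq_empty_iff_subset]
          omega
        obtain ⟨i, hi⟩ := card_eq_one.1 hc1
        have hiN : i ∈ N := (mem_sdiff.1 (hi ▸ mem_singleton_self i : i ∈ N \ A)).1
        have hiA : i ∉ A := (mem_sdiff.1 (hi ▸ mem_singleton_self i : i ∈ N \ A)).2
        have hiB : i ∉ B := (mem_sdiff.1 (hAB ▸ hi ▸ mem_singleton_self i : i ∈ N \ B)).2
        -- the other element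
        have hc2 : #(N.erase i) = 1 := by rw [card_erase_of_mem hiN, hn]
        obtain ⟨j, hj⟩ := card_eq_one.1 hc2
        have hjN : j ∈ N := mem_of_mem_erase (hj ▸ mem_singleton_self j : j ∈ N.erase i)
        have hji : j ≠ i := ne_of_mem_erase (hj ▸ mem_singleton_self j : j ∈ N.erase i)
        have hNij : ∀ x ∈ N, x = i ∨ x = j := by
          intro x hx
          by_cases hxi : x = i
          · exact Or.inl hxi
          · right
            have : x ∈ N.erase i := mem_erase.2 ⟨hxi, hx⟩
            rw [hj] at this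
            exact mem_singleton.1 this
        have hmj := h.sdiff_mx hjN
        have him : i ∈ mx F j := by
          by_contra hc
          have : i ∈ N \ mx F j := mem_sdiff.2 ⟨hiN, hc⟩
          rw [hmj] at this
          exact hji (mem_singleton.1 this).symm
        have hjB : j ∈ B := by
          by_contra hc
          have : j ∈ N \ B := mem_sdiff.2 ⟨hjN, hc⟩
          rw [← hAB, hi] at this
          exact hji (mem_singleton.1 this)
        intro e he
        have h1 : B ∪ mx F j = F.sup id := by
          refine key _ (h.un _ hB _ (h.mx_mem j)) ?_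
          intro x hx
          rw [mem_union]
          rcases hNij x hx with rfl | rfl
          · exact Or.inr him
          · exact Or.inl hjB
        have h2 : e ∈ B ∪ mx F j := h1 ▸ mem_top hA he
        rcases mem_union.1 h2 with h3 | h3
        · exact h3
        · exfalso
          obtain ⟨x, hx, hxA, hxm⟩ := h.common hA (h.mx_mem j) he h3
          rcases hNij x hx with rfl | rfl
          · exact hiA hxA
          · exact notMem_mx F x hxm
      intro A hA B hB hAB
      exact Subset.antisymm (main A hA B hB hAB) (main B hB A hA hAB.symm)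
    · intro i hi
      have hc2 : #(N.erase i) = 1 := by rw [card_erase_of_mem hi, hn]
      obtain ⟨j, hj⟩ := card_eq_one.1 hc2
      have hjN : j ∈ N := mem_of_mem_erase (hj ▸ mem_singleton_self j : j ∈ N.erase i)
      exact ⟨mx F j, h.mx_mem j, by rw [h.sdiff_mx hjN, hj]⟩

end Pool.Agent.Y85.UT
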