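import Pool.Agent.Y85.UT.Small

set_option autoImplicit false

/-!
# Union-closed families in which large traces have small intersections: `#N = 3`
-/

namespace Pool.Agent.Y85.UT

open Finset

variable {α : Type*} [DecidableEq α] {F : Finset (Finset α)} {N : Finset α}

/-- `#N = 3` -/
theorem three (h : Setup F N) (hn : #N = 3) (hI : Inc F N) : ∑ A ∈ F, wt N A < 0 ∨
    (∑ A ∈ F, wt N A = 0 ∧ (∀ A ∈ F, ∀ B ∈ F, N \ A = N \ B → A = B) ∧
      ∀ i ∈ N, ∃ A ∈ F, N \ A = N.erase i) := by
  classical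
  have hle : ∀ A, #(N \ A) ≤ 3 := fun A => hn ▸ card_le_card sdiff_subset
  -- members missing exactly two elements form chains
  have hch : ∀ A ∈ F, ∀ B ∈ F, #(N \ A) = 2 → N \ A = N \ B → A ⊆ B ∨ B ⊆ A := by
    intro A hA B hB hc hAB
    by_contra hcon
    rw [not_or] at hcon
    have h1 := hI A hA B hB hcon.1 hcon.2 (by omega) (by rw [← hAB]; omega)
    have h2 : N \ (A ∪ B) = N \ A := by
      ext x
      have h3 : x ∈ N \ A ↔ x ∈ N \ B := by rw [hAB]
      simp only [mem_sdiff, mem_union] at h3 ⊢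
      tauto
    rw [h2] at h1
    omega
  have hempb : ∅ ∈ big F N := mem_filter.2 ⟨h.emp, by simp [hn]⟩
  have hempr : ∅ ∉ rep F N := by
    intro hc
    obtain ⟨_, B, hB, hB1, hB2⟩ := mem_filter.1 hc
    rw [sdiff_empty] at hB2
    rw [h.eq_empty hB hB2] at hB1
    exact absurd hB1 (ssubset_irrefl _)
  have hthree : ∀ A ∈ F, #(N \ A) = 3 → A = ∅ := fun A hA hc =>
    h.eq_empty hA (Finset.eq_of_subset_of_card_le sdiff_subset (by omega))
  have hbig : ∀ A ∈ big F N, A ≠ ∅ → #(N \ A) = 2 := by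
    intro A hA hA0
    obtain ⟨hAF, hAb⟩ := mem_filter.1 hA
    have h1 := hle A
    have h2 : #(N \ A) ≠ 3 := fun hc => hA0 (hthree A hAF hc)
    omega
  have her : ∀ A, #(N \ A) = 2 → ∃ i ∈ N, N \ A = N.erase i := by
    intro A hc
    have h1 : #(N ∩ A) = 1 := by
      have := Finset.card_sdiff_add_card_inter N A
      omega
    obtain ⟨i, hi⟩ := card_eq_one.1 h1
    have hi' : i ∈ N ∩ A := hi ▸ mem_singleton_self i
    refine ⟨i, (mem_inter.1 hi').1, ?_⟩
    ext x
    rw [mem_sdiff, mem_erase]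
    have h2 : x ∈ N ∩ A ↔ x = i := by rw [hi, mem_singleton]
    rw [mem_inter] at h2
    constructor
    · rintro ⟨h3, h4⟩
      exact ⟨fun hc => h4 (h2.2 hc).2, h3⟩
    · rintro ⟨h3, h4⟩
      exact ⟨h4, fun hc => h3 (h2.1 ⟨h4, hc⟩)⟩
  obtain ⟨φ, hφ1, hφ2⟩ := exists_map h (by omega) hI
  -- the first part
  have hR : ∑ A ∈ rep F N, wt N A = #(rep F N) := by
    rw [Finset.sum_congr rfl (g := fun _ => (1 : ℤ))]
    · simp
    · intro A hA
      have hA0 : A ≠ ∅ := fun hc => hempr (hc ▸ hA)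
      have := hbig A (mem_filter.1 hA).1 hA0
      unfold wt
      rw [this, hn]
      norm_num
  have hRle : #(rep F N) ≤ 3 * #(full F N) := by
    have h1 : #(rep F N) = ∑ i ∈ N, #((rep F N).filter fun A => N \ A = N.erase i) := by
      rw [← Finset.card_biUnion]
      · congr 1
        ext A
        rw [mem_biUnion]
        constructor
        · intro hA
          have hA0 : A ≠ ∅ := fun hc => hempr (hc ▸ hA)
          obtain ⟨i, hi, hi'⟩ := her A (hbig A (mem_filter.1 hA).1 hA0)
          exact ⟨i, hi, mem_filter.2 ⟨hA, hi'⟩⟩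
        · rintro ⟨i, _, hi⟩
          exact (mem_filter.1 hi).1
      · intro i hi j hj hij
        rw [Function.onFun, Finset.disjoint_left]
        intro A hA hA'
        have h1 := (mem_filter.1 hA).2
        rw [(mem_filter.1 hA').2] at h1
        have h2 : i ∈ N.erase j := mem_erase.2 ⟨hij, hi⟩
        rw [h1] at h2
        exact (mem_erase.1 h2).1 rfl
    rw [h1]
    have h2 : ∀ i ∈ N, #((rep F N).filter fun A => N \ A = N.erase i) ≤ #(full F N) := by
      intro i hi
      refine card_le_card_of_injOn φ (fun A hA => ?_) ?_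
      · exact hφ1 A (mem_filter.1 (mem_coe.1 hA)).1
      · intro A hA B hB hAB
        obtain ⟨hA1, hA2⟩ := mem_filter.1 (mem_coe.1 hA)
        obtain ⟨hB1, hB2⟩ := mem_filter.1 (mem_coe.1 hB)
        by_contra hne
        have hAF := (mem_filter.1 (mem_filter.1 hA1).1).1
        have hBF := (mem_filter.1 (mem_filter.1 hB1).1).1
        rcases hch A hAF B hBF (by rw [hA2, card_erase_of_mem hi, hn]) (hA2.trans hB2.symm) with
          h3 | h3
        · exact hφ2 A hA1 B hB1 (h3.ssubset_of_ne hne) hAB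
        · exact hφ2 B hB1 A hA1 (h3.ssubset_of_ne (Ne.symm hne)) hAB.symm
    calc ∑ i ∈ N, #((rep F N).filter fun A => N \ A = N.erase i) ≤ ∑ _i ∈ N, #(full F N) :=
          Finset.sum_le_sum h2
      _ = 3 * #(full F N) := by rw [Finset.sum_const, hn, smul_eq_mul]
  -- the second part
  set Q := ((big F N \ rep F N).erase ∅) with hQ
  have hem : ∅ ∈ big F N \ rep F N := mem_sdiff.2 ⟨hempb, hempr⟩
  have hQ1 : ∑ A ∈ big F N \ rep F N, wt N A = 3 + #Q := by
    rw [← Finset.add_sum_erase _ _ hem]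
    congr 1
    · simp [wt, hn]
    · rw [Finset.sum_congr rfl (g := fun _ => (1 : ℤ))]
      · simp [hQ]
      · intro A hA
        have := hbig A (mem_sdiff.1 (mem_of_mem_erase hA)).1 (ne_of_mem_erase hA)
        unfold wt
        rw [this, hn]
        norm_num
  have hQ2 : #Q = ∑ i ∈ N, #(Q.filter fun A => N \ A = N.erase i) := by
    rw [← Finset.card_biUnion]
    · congr 1
      ext A
      rw [mem_biUnion]
      constructor
      · intro hA
        obtain ⟨i, hi, hi'⟩ := her A
          (hbig A (mem_sdiff.1 (mem_of_mem_erase hA)).1 (ne_of_mem_erase hA))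
        exact ⟨i, hi, mem_filter.2 ⟨hA, hi'⟩⟩
      · rintro ⟨i, _, hi⟩
        exact (mem_filter.1 hi).1
    · intro i hi j hj hij
      rw [Function.onFun, Finset.disjoint_left]
      intro A hA hA'
      have h1 := (mem_filter.1 hA).2
      rw [(mem_filter.1 hA').2] at h1
      have h2 : i ∈ N.erase j := mem_erase.2 ⟨hij, hi⟩
      rw [h1] at h2
      exact (mem_erase.1 h2).1 rfl
  have hQ3 : ∀ i ∈ N, #(Q.filter fun A => N \ A = N.erase i) ≤ 1 := by
    intro i hi
    rw [card_le_one]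
    intro A hA B hB
    obtain ⟨hA1, hA2⟩ := mem_filter.1 hA
    obtain ⟨hB1, hB2⟩ := mem_filter.1 hB
    have hA3 := mem_of_mem_erase hA1
    have hB3 := mem_of_mem_erase hB1
    have hA4 := (mem_sdiff.1 hA3).1
    have hB4 := (mem_sdiff.1 hB3).1
    by_contra hne
    rcases hch A (mem_filter.1 hA4).1 B (mem_filter.1 hB4).1
      (by rw [hA2, card_erase_of_mem hi, hn]) (hA2.trans hB2.symm) with h3 | h3
    · exact nonrep_inc hA3 hB4 hne (by rw [hA2, hB2]) h3
    · exact nonrep_inc hB3 hA4 (Ne.symm hne) (by rw [hA2, hB2]) h3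
  have hQ4 : #Q ≤ 3 := by
    rw [hQ2, ← hn, Finset.card_eq_sum_ones]
    exact Finset.sum_le_sum hQ3
  -- the total
  have hs := small_sum h (by omega)
  rw [hn] at hs
  have htot : ∑ A ∈ F, wt N A = ∑ A ∈ F \ big F N, wt N A + (3 + #Q + #(rep F N)) := by
    have hb : big F N ⊆ F := filter_subset _ _
    have hr : rep F N ⊆ big F N := filter_subset _ _
    rw [← Finset.sum_sdiff hb, ← Finset.sum_sdiff hr, hR, hQ1]
  by_cases hT : ∑ A ∈ F, wt N A < 0
  · exact Or.inl hT
  right
  push Not at hT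
  push_cast at hs
  have e1 : #Q = 3 := by omega
  have e2 : #(rep F N) = 3 * #(full F N) := by omega
  have e3 : ∀ B ∈ F \ big F N, B ∈ spec F N := by
    intro B hB
    by_contra hc
    have h1 := small_sum_one h (by omega) hB hc
    have h2 := wt_small hB
    have h3 : wt N B ≠ 0 := by
      unfold wt
      rw [hn]
      omega
    rw [hn] at h1
    push_cast at h1
    omega
  have e4 : ∀ i ∈ N, ∃ A ∈ F, N \ A = N.erase i := by
    intro i hi
    by_contra hcon
    have h0 : #(Q.filter fun A => N \ A = N.erase i) = 0 := by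
      rw [card_eq_zero, filter_eq_empty_iff]
      intro A hA hc
      exact hcon ⟨A, (mem_filter.1 (mem_sdiff.1 (mem_of_mem_erase hA)).1).1, hc⟩
    have h1 : ∑ j ∈ N, #(Q.filter fun A => N \ A = N.erase j) < ∑ _j ∈ N, 1 :=
      Finset.sum_lt_sum hQ3 ⟨i, hi, by omega⟩
    rw [← hQ2, ← Finset.card_eq_sum_ones] at h1
    omega
  -- members missing one element
  have e5 : ∀ A ∈ F, ∀ B ∈ F, #(N \ A) = 1 → N \ A = N \ B → A = B := by
    have h1 : ∀ A ∈ F, ∀ i ∈ N, N \ A = {i} → A = mx F i := by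
      intro A hA i hi hAi
      have h2 : A ∈ F \ big F N := by
        refine mem_sdiff.2 ⟨hA, fun hc => ?_⟩
        have := (mem_filter.1 hc).2
        rw [hAi, hn] at this
        simp at this
      have h3 := e3 A h2
      rcases mem_union.1 h3 with h4 | h4
      · exfalso
        have h5 : N ⊆ A := by
          rcases mem_insert.1 h4 with h6 | h6
          · rw [h6]; exact h.sub
          · exact (mem_filter.1 h6).2.1
        have h6 : i ∈ N \ A := by rw [hAi]; exact mem_singleton_self i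
        exact (mem_sdiff.1 h6).2 (h5 hi)
      · obtain ⟨j, hj, rfl⟩ := mem_image.1 h4
        rw [h.sdiff_mx hj] at hAi
        rw [singleton_injective hAi]
    intro A hA B hB hc hAB
    obtain ⟨i, hi⟩ := card_eq_one.1 hc
    have hiN : i ∈ N := (mem_sdiff.1 (hi ▸ mem_singleton_self i : i ∈ N \ A)).1
    rw [h1 A hA i hiN hi, h1 B hB i hiN (hAB ▸ hi)]
  have e6 : ∀ A ∈ F, ∀ B ∈ F, #(N \ A) = 2 → N \ A = N \ B → ¬ A ⊂ B := by
    intro A hA B hB hc hAB hss
    obtain ⟨i, hi, hAi⟩ := her A hc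
    obtain ⟨j, hj⟩ : (N.erase i).Nonempty := card_pos.1 (by rw [card_erase_of_mem hi]; omega)
    obtain ⟨hji, hjN⟩ := mem_erase.1 hj
    obtain ⟨C, hC, hCj⟩ := e4 j hjN
    obtain ⟨e, heB, heA⟩ := exists_of_ssubset hss
    have hA' : ∀ x ∈ N, (x ∈ A ↔ x = i) := by
      intro x hx
      have : x ∈ N \ A ↔ x ∈ N.erase i := by rw [hAi]
      rw [mem_sdiff, mem_erase] at this
      tauto
    have hB' : ∀ x ∈ N, (x ∈ B ↔ x = i) := by
      intro x hx
      have : x ∈ N \ B ↔ x ∈ N.erase i := by rw [← hAB, hAi]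
      rw [mem_sdiff, mem_erase] at this
      tauto
    have hC' : ∀ x ∈ N, (x ∈ C ↔ x = j) := by
      intro x hx
      have : x ∈ N \ C ↔ x ∈ N.erase j := by rw [hCj]
      rw [mem_sdiff, mem_erase] at this
      tauto
    have h1 : N \ (A ∪ C) = N \ (B ∪ C) := by
      ext x
      simp only [mem_sdiff, mem_union]
      constructor
      · rintro ⟨h2, h3⟩
        exact ⟨h2, by rw [hB' x h2]; rwa [hA' x h2] at h3⟩
      · rintro ⟨h2, h3⟩
        exact ⟨h2, by rw [hA' x h2]; rwa [hB' x h2] at h3⟩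
    have h2 : #(N \ (A ∪ C)) = 1 := by
      have h3 : N \ (A ∪ C) = (N.erase i).erase j := by
        ext x
        simp only [mem_sdiff, mem_union, mem_erase]
        constructor
        · rintro ⟨h2, h3⟩
          rw [hA' x h2, hC' x h2] at h3
          tauto
        · rintro ⟨h2, h3, h4⟩
          refine ⟨h4, ?_⟩
          rw [hA' x h4, hC' x h4]
          tauto
      rw [h3, card_erase_of_mem hj, card_erase_of_mem hi, hn]
    have h3 := e5 _ (h.un _ hA _ hC) _ (h.un _ hB _ hC) h2 h1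
    have h4 : e ∈ A ∪ C := h3 ▸ mem_union_left _ heB
    rcases mem_union.1 h4 with h5 | h5
    · exact heA h5
    · obtain ⟨x, hx, hxB, hxC⟩ := h.common hB hC heB h5
      rw [hB' x hx] at hxB
      rw [hC' x hx] at hxC
      exact hji (hxC.symm.trans hxB)
  have e7 : rep F N = ∅ := by
    rw [Finset.eq_empty_iff_forall_notMem]
    intro A hA
    have hA0 : A ≠ ∅ := fun hc => hempr (hc ▸ hA)
    obtain ⟨hAb, B, hB, hAB, hNB⟩ := mem_filter.1 hA
    exact e6 A (mem_filter.1 hAb).1 B hB (hbig A hAb hA0) hNB.symm hAB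
  have e8 : #(full F N) = 0 := by
    rw [e7, card_empty] at e2
    omega
  have e9 : ∀ A ∈ F, N \ A = ∅ → A = F.sup id := by
    intro A hA hc
    by_contra hne
    have : A ∈ full F N := mem_filter.2 ⟨hA, sdiff_eq_empty_iff_subset.1 hc, hne⟩
    rw [card_eq_zero.1 e8] at this
    exact absurd this (notMem_empty _)
  refine ⟨?_, ?_, e4⟩
  · rw [htot, e1, e7, card_empty]
    have h1 : ∑ A ∈ F \ big F N, wt N A = -6 := by
      have h2 : F \ big F N = spec F N := Subset.antisymm e3 (spec_sub h (by omega))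
      rw [h2, spec_sum h, e8, hn]
      norm_num
    rw [h1]
    norm_num
  · intro A hA B hB hAB
    have h1 := hle A
    have hcase : #(N \ A) = 0 ∨ #(N \ A) = 1 ∨ #(N \ A) = 2 ∨ #(N \ A) = 3 := by omega
    rcases hcase with hc | hc | hc | hc
    · have h2 := card_eq_zero.1 hc
      rw [e9 A hA h2, e9 B hB (hAB ▸ h2)]
    · exact e5 A hA B hB hc hAB
    · by_contra hne
      rcases hch A hA B hB hc hAB with h2 | h2
      · exact e6 A hA B hB hc hAB (h2.ssubset_of_ne hne)
      · exact e6 B hB A hA (hAB ▸ hc) hAB.symm (h2.ssubset_of_ne (Ne.symm hne))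
    · rw [hthree A hA hc, hthree B hB (hAB ▸ hc)]

end Pool.Agent.Y85.UT
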