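import Pool.Agent.Y85.UT.Final

set_option autoImplicit false

/-!
# Union-closed families in which large traces have small intersections: weights
-/

namespace Pool.Agent.Y85.UT.W

open Finset Pool.Agent.Y85.UT

variable {α : Type*} [DecidableEq α]

/-- A union-closed family with the empty set, and a set `N` of undominated elements with positive
weights, each at most a quarter of the total. -/
structure Setup (F : Finset (Finset α)) (N : Finset α) (w : α → ℝ) : Prop where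
  emp : ∅ ∈ F
  un : ∀ X ∈ F, ∀ Y ∈ F, X ∪ Y ∈ F
  sub : N ⊆ F.sup id
  und : ∀ i ∈ N, ∀ e ∈ F.sup id, (∀ A ∈ F, i ∈ A → e ∈ A) → e = i
  pos : ∀ i ∈ N, 0 < w i
  tot : 0 < ∑ i ∈ N, w i
  quarter : ∀ i ∈ N, 4 * w i ≤ ∑ j ∈ N, w j
  inc : ∀ A ∈ F, ∀ B ∈ F, ¬ A ⊆ B → ¬ B ⊆ A → ∑ i ∈ N, w i < 2 * ∑ i ∈ N \ A, w i →
    ∑ i ∈ N, w i < 2 * ∑ i ∈ N \ B, w i → 4 * ∑ i ∈ N \ (A ∪ B), w i ≤ ∑ i ∈ N, w i

/-- weight of a member -/
noncomputable def wt (N : Finset α) (w : α → ℝ) (A : Finset α) : ℝ :=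
  2 * ∑ i ∈ N \ A, w i - ∑ i ∈ N, w i

/-- the Cauchy-Schwarz bound -/
lemma cs (N : Finset α) (w : α → ℝ) (hw : ∀ i ∈ N, 0 ≤ w i) (G : Finset (Finset α))
    (hG : ∀ A ∈ G, ∀ B ∈ G, A ≠ B → 4 * ∑ i ∈ N \ (A ∪ B), w i ≤ ∑ i ∈ N, w i) :
    ∑ A ∈ G, wt N w A ≤ ∑ i ∈ N, w i := by
  classical
  set n : ℝ := ∑ i ∈ N, w i with hn
  have hn0 : 0 ≤ n := Finset.sum_nonneg hw
  set k : ℝ := (#G : ℝ) with hk
  set S : ℝ := ∑ A ∈ G, ∑ i ∈ N \ A, w i with hS
  set T : ℝ := ∑ A ∈ G, wt N w A with hT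
  have hTS : T = 2 * S - k * n := by
    rw [hT, hS, hk]
    unfold wt
    rw [Finset.sum_sub_distrib, Finset.mul_sum, Finset.sum_const, nsmul_eq_mul]
  -- counting function
  set f : α → ℝ := fun i => ∑ A ∈ G, if i ∈ N \ A then 1 else 0 with hf
  have hsd : ∀ C : Finset α, ∑ i ∈ N \ C, w i = ∑ i ∈ N, w i * if i ∈ N \ C then 1 else 0 := by
    intro C
    simp only [mul_ite, mul_one, mul_zero]
    rw [Finset.sum_ite_mem, Finset.inter_eq_right.2 sdiff_subset]
  have h1 : ∑ i ∈ N, w i * f i = S := by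
    rw [hS, Finset.sum_congr rfl fun A _ => hsd A, Finset.sum_comm]
    refine Finset.sum_congr rfl fun i _ => ?_
    rw [hf, Finset.mul_sum]
  have h2 : ∑ i ∈ N, w i * f i ^ 2 = ∑ A ∈ G, ∑ B ∈ G, ∑ i ∈ N \ (A ∪ B), w i := by
    have : ∀ i ∈ N, w i * f i ^ 2 =
        ∑ A ∈ G, ∑ B ∈ G, w i * if i ∈ N \ (A ∪ B) then (1:ℝ) else 0 := by
      intro i hi
      rw [hf, sq]
      simp only
      rw [Finset.sum_mul_sum, Finset.mul_sum]
      refine Finset.sum_congr rfl fun A _ => ?_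
      rw [Finset.mul_sum]
      refine Finset.sum_congr rfl fun B _ => ?_
      congr 1
      by_cases hA : i ∈ A <;> by_cases hB : i ∈ B <;> simp [hA, hB, hi]
    rw [Finset.sum_congr rfl this, Finset.sum_comm]
    refine Finset.sum_congr rfl fun A _ => ?_
    rw [Finset.sum_comm]
    refine Finset.sum_congr rfl fun B _ => ?_
    rw [hsd]
  have h3 : S ^ 2 ≤ n * ∑ i ∈ N, w i * f i ^ 2 := by
    have h4 := Finset.sum_mul_sq_le_sq_mul_sq N (fun i => √(w i)) (fun i => √(w i) * f i)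
    have h5 : ∑ i ∈ N, √(w i) * (√(w i) * f i) = S := by
      rw [← h1]
      refine Finset.sum_congr rfl fun i hi => ?_
      rw [← mul_assoc, Real.mul_self_sqrt (hw i hi)]
    have h6 : ∑ i ∈ N, √(w i) ^ 2 = n :=
      Finset.sum_congr rfl fun i hi => Real.sq_sqrt (hw i hi)
    have h7 : ∑ i ∈ N, (√(w i) * f i) ^ 2 = ∑ i ∈ N, w i * f i ^ 2 :=
      Finset.sum_congr rfl fun i hi => by rw [mul_pow, Real.sq_sqrt (hw i hi)]
    rw [h5, h6, h7] at h4
    exact h4
  have h4 : 4 * ∑ i ∈ N, w i * f i ^ 2 ≤ 4 * S + k * (k - 1) * n := by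
    rw [h2, Finset.mul_sum]
    have h5 : ∀ A ∈ G, 4 * ∑ B ∈ G, ∑ i ∈ N \ (A ∪ B), w i ≤
        4 * ∑ i ∈ N \ A, w i + (k - 1) * n := by
      intro A hA
      rw [← Finset.add_sum_erase G _ hA, Finset.union_self, mul_add]
      have h6 : ∀ B ∈ G.erase A, 4 * ∑ i ∈ N \ (A ∪ B), w i ≤ n := fun B hB =>
        hG A hA B (mem_of_mem_erase hB) (ne_of_mem_erase hB).symm
      have h7 : 4 * ∑ B ∈ G.erase A, ∑ i ∈ N \ (A ∪ B), w i ≤ (k - 1) * n := by
        rw [Finset.mul_sum]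
        calc ∑ B ∈ G.erase A, 4 * ∑ i ∈ N \ (A ∪ B), w i ≤ ∑ _B ∈ G.erase A, n :=
              Finset.sum_le_sum h6
          _ = (k - 1) * n := by
              rw [Finset.sum_const, card_erase_of_mem hA, nsmul_eq_mul, Nat.cast_sub]
              · rw [hk]; push_cast; ring
              · exact card_pos.2 ⟨A, hA⟩
      linarith
    calc ∑ A ∈ G, 4 * ∑ B ∈ G, ∑ i ∈ N \ (A ∪ B), w i
        ≤ ∑ A ∈ G, (4 * ∑ i ∈ N \ A, w i + (k - 1) * n) := Finset.sum_le_sum h5
      _ = 4 * S + k * (k - 1) * n := by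
          rw [Finset.sum_add_distrib, ← Finset.mul_sum, Finset.sum_const, nsmul_eq_mul]
          ring
  have h5 : 4 * S ^ 2 ≤ n * (4 * S + k * (k - 1) * n) := by
    calc 4 * S ^ 2 ≤ 4 * (n * ∑ i ∈ N, w i * f i ^ 2) := by linarith
      _ = n * (4 * ∑ i ∈ N, w i * f i ^ 2) := by ring
      _ ≤ _ := mul_le_mul_of_nonneg_left h4 hn0
  have h6 : T ^ 2 + 2 * (k - 1) * n * T ≤ k * n ^ 2 := by
    have h7 : 2 * S = T + k * n := by linarith
    have h8 : (2 * S) ^ 2 ≤ n * (2 * (2 * S) + k * (k - 1) * n) := by linarith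
    rw [h7] at h8
    nlinarith
  by_contra hlt
  push Not at hlt
  have hG0 : 1 ≤ k := by
    by_contra hk1
    have hk2 : #G = 0 := by
      by_contra hc
      apply hk1
      rw [hk]
      exact_mod_cast Nat.one_le_iff_ne_zero.2 hc
    rw [Finset.card_eq_zero] at hk2
    rw [hT, hk2, Finset.sum_empty] at hlt
    linarith
  nlinarith [mul_nonneg (sub_nonneg.2 hG0) hn0, mul_nonneg (mul_nonneg (sub_nonneg.2 hG0) hn0)
    (sub_nonneg.2 hlt.le)]

variable {F : Finset (Finset α)} {N : Finset α} {w : α → ℝ}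

lemma Setup.mx_mem (h : Setup F N w) (e : α) : mx F e ∈ F :=
  sup_mem' h.emp h.un (filter_subset _ _)

lemma Setup.top_mem (h : Setup F N w) : F.sup id ∈ F := sup_mem' h.emp h.un (Subset.refl _)

lemma Setup.sdiff_mx (h : Setup F N w) {i : α} (hi : i ∈ N) : N \ mx F i = {i} := by
  ext j
  rw [mem_sdiff, mem_singleton]
  constructor
  · rintro ⟨hj, hji⟩
    symm
    refine h.und j hj i (h.sub hi) ?_
    intro A hA hjA
    by_contra hiA
    exact hji (sub_mx hA hiA hjA)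
  · rintro rfl
    exact ⟨hi, notMem_mx F j⟩

lemma Setup.sub_of_same (h : Setup F N w) {A B : Finset α} (hB : B ∈ F)
    (hAB : N \ A = N \ B) {e : α} (heA : e ∉ A) (heB : e ∈ B) : N ⊆ mx F e := by
  intro i hi
  by_contra hie
  have h1 : ∀ C ∈ F, i ∈ C → e ∈ C := by
    intro C hC hiC
    by_contra heC
    exact hie (sub_mx hC heC hiC)
  have h2 := h.und i hi e (mem_top hB heB) h1
  subst h2
  have h5 : e ∈ N \ B := hAB ▸ mem_sdiff.2 ⟨hi, heA⟩
  exact (mem_sdiff.1 h5).2 heB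

open Classical in
/-- the members missing more than half of the weight -/
noncomputable def big (F : Finset (Finset α)) (N : Finset α) (w : α → ℝ) : Finset (Finset α) :=
  F.filter fun A => ∑ i ∈ N, w i < 2 * ∑ i ∈ N \ A, w i

open Classical in
/-- members with a larger member of the same trace -/
noncomputable def rep (F : Finset (Finset α)) (N : Finset α) (w : α → ℝ) : Finset (Finset α) :=
  (big F N w).filter fun A => ∃ B ∈ F, A ⊂ B ∧ N \ B = N \ A

lemma exists_el (h : Setup F N w) {A : Finset α} (hA : A ∈ rep F N w) :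
    ∃ e, e ∉ A ∧ (∃ B ∈ F, e ∈ B ∧ N \ A = N \ B) ∧ ∀ A' ∈ big F N w, A ⊂ A' → e ∈ A' := by
  classical
  obtain ⟨hAb, B₀, hB₀, hAB₀, hN₀⟩ := mem_filter.1 hA
  obtain ⟨hAF, hAbig⟩ := mem_filter.1 hAb
  have hne : (F.filter fun B => A ⊂ B ∧ N \ B = N \ A).Nonempty :=
    ⟨B₀, mem_filter.2 ⟨hB₀, hAB₀, hN₀⟩⟩
  obtain ⟨B, hB, hmin⟩ := exists_min_image _ (fun B => #B) hne
  obtain ⟨hBF, hAB, hNB⟩ := mem_filter.1 hB
  obtain ⟨e, heB, heA⟩ := exists_of_ssubset hAB
  refine ⟨e, heA, ⟨B, hBF, heB, hNB.symm⟩, ?_⟩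
  intro A' hA' hAA'
  obtain ⟨hA'F, hA'big⟩ := mem_filter.1 hA'
  have h1 : N \ (B ∪ A') = N \ A' := by
    have : N \ A' ⊆ N \ B := by
      rw [hNB]
      exact sdiff_subset_sdiff (Subset.refl _) hAA'.subset
    ext x
    have h2 := @this x
    simp only [mem_sdiff, mem_union] at h2 ⊢
    tauto
  have h2 : B ⊆ A' ∨ A' ⊆ B := by
    by_contra hcon
    rw [not_or] at hcon
    have h3 := h.inc B hBF A' hA'F hcon.1 hcon.2 (by rw [hNB]; exact hAbig) hA'big
    rw [h1] at h3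
    have := h.tot
    linarith
  rcases h2 with h2 | h2
  · exact h2 heB
  · have h3 : N \ A' = N \ A := by
      apply Subset.antisymm
      · exact sdiff_subset_sdiff (Subset.refl _) hAA'.subset
      · rw [← hNB]
        exact sdiff_subset_sdiff (Subset.refl _) h2
    have h4 := hmin A' (mem_filter.2 ⟨hA'F, hAA', h3⟩)
    rw [Finset.eq_of_subset_of_card_le h2 h4]
    exact heB

lemma exists_map (h : Setup F N w) :
    ∃ φ : Finset α → Finset α, (∀ A ∈ rep F N w, φ A ∈ full F N) ∧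
      ∀ A ∈ rep F N w, ∀ A' ∈ rep F N w, A ⊂ A' → φ A ≠ φ A' := by
  classical
  have hex := fun A (hA : A ∈ rep F N w) => exists_el h hA
  have hne : Nonempty α := by
    by_contra hc
    have : N = ∅ := by
      rw [Finset.eq_empty_iff_forall_notMem]
      exact fun x _ => hc ⟨x⟩
    have h1 := h.tot
    rw [this, Finset.sum_empty] at h1
    exact absurd h1 (lt_irrefl _)
  choose! g hg using hex
  refine ⟨fun A => mx F (g A), ?_, ?_⟩
  · intro A hA
    obtain ⟨h1, ⟨B, hBF, heB, hNB⟩, h3⟩ := hg A hA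
    refine mem_filter.2 ⟨h.mx_mem _, h.sub_of_same hBF hNB h1 heB, ?_⟩
    intro hc
    have hc' : mx F (g A) = F.sup id := hc
    exact notMem_mx F (g A) (by rw [hc']; exact mem_top hBF heB)
  · intro A hA A' hA' hAA' heq
    obtain ⟨h1, _, h3⟩ := hg A hA
    obtain ⟨h1', _, _⟩ := hg A' hA'
    have hA'b : A' ∈ big F N w := (mem_filter.1 hA').1
    have hA'F : A' ∈ F := (mem_filter.1 hA'b).1
    have h4 : g A ∈ A' := h3 A' hA'b hAA'
    have h5 : g A ∈ mx F (g A') := sub_mx hA'F h1' h4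
    simp only at heq
    rw [← heq] at h5
    exact notMem_mx _ _ h5

lemma inc4 (h : Setup F N w) {A B : Finset α} (hA : A ∈ big F N w) (hB : B ∈ big F N w)
    (h1 : ¬ A ⊆ B) (h2 : ¬ B ⊆ A) : 4 * ∑ i ∈ N \ (A ∪ B), w i ≤ ∑ i ∈ N, w i := by
  classical
  obtain ⟨hAF, hAb⟩ := mem_filter.1 hA
  obtain ⟨hBF, hBb⟩ := mem_filter.1 hB
  exact h.inc A hAF B hBF h1 h2 hAb hBb

lemma rep_sum (h : Setup F N w) :
    ∑ A ∈ rep F N w, wt N w A ≤ #(full F N) * ∑ i ∈ N, w i := by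
  classical
  obtain ⟨φ, h1, h2⟩ := exists_map h
  rw [← Finset.sum_fiberwise_of_maps_to h1]
  calc ∑ M ∈ full F N, ∑ A ∈ (rep F N w).filter (fun A => φ A = M), wt N w A
      ≤ ∑ _M ∈ full F N, ∑ i ∈ N, w i := by
        refine Finset.sum_le_sum fun M _ => cs N w (fun i hi => (h.pos i hi).le) _ ?_
        intro A hA B hB hAB
        obtain ⟨hA1, hA2⟩ := mem_filter.1 hA
        obtain ⟨hB1, hB2⟩ := mem_filter.1 hB
        refine inc4 h (mem_filter.1 hA1).1 (mem_filter.1 hB1).1 ?_ ?_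
        · intro hc
          exact h2 A hA1 B hB1 (hc.ssubset_of_ne hAB) (hA2.trans hB2.symm)
        · intro hc
          exact h2 B hB1 A hA1 (hc.ssubset_of_ne hAB.symm) (hB2.trans hA2.symm)
    _ = #(full F N) * ∑ i ∈ N, w i := by
        rw [Finset.sum_const, nsmul_eq_mul]

lemma nonrep_inc {A B : Finset α} (hA : A ∈ big F N w \ rep F N w) (hB : B ∈ big F N w)
    (hAB : A ≠ B) (hc : #(N \ A) = #(N \ B)) : ¬ A ⊆ B := by
  classical
  intro hs
  obtain ⟨hA1, hA2⟩ := mem_sdiff.1 hA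
  apply hA2
  refine mem_filter.2 ⟨hA1, B, (mem_filter.1 hB).1, hs.ssubset_of_ne hAB, ?_⟩
  exact Finset.eq_of_subset_of_card_le (sdiff_subset_sdiff (Subset.refl _) hs) hc.le

/-- a set of more than half of the weight has at least three elements -/
lemma three_le (h : Setup F N w) {X : Finset α} (hX : X ⊆ N)
    (hb : ∑ i ∈ N, w i < 2 * ∑ i ∈ X, w i) : 3 ≤ #X := by
  by_contra hc
  have h1 : ∑ i ∈ X, 4 * w i ≤ ∑ _i ∈ X, ∑ j ∈ N, w j :=
    Finset.sum_le_sum fun i hi => h.quarter i (hX hi)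
  rw [← Finset.mul_sum, Finset.sum_const, nsmul_eq_mul] at h1
  have h2 : (#X : ℝ) ≤ 2 := by exact_mod_cast (by omega : #X ≤ 2)
  have h3 := h.tot
  nlinarith

lemma four_le (h : Setup F N w) : 4 ≤ #N := by
  by_contra hc
  have h1 : ∑ i ∈ N, 4 * w i ≤ ∑ _i ∈ N, ∑ j ∈ N, w j :=
    Finset.sum_le_sum fun i hi => h.quarter i hi
  rw [← Finset.mul_sum, Finset.sum_const, nsmul_eq_mul] at h1
  have h2 : (#N : ℝ) ≤ 3 := by exact_mod_cast (by omega : #N ≤ 3)
  have h3 := h.tot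
  nlinarith

lemma nonrep_sum (h : Setup F N w) :
    ∑ A ∈ big F N w \ rep F N w, wt N w A ≤ ((#N : ℝ) - 2) * ∑ i ∈ N, w i := by
  classical
  have h1 : ∀ A ∈ big F N w \ rep F N w, #(N \ A) ∈ Ioc 2 #N := by
    intro A hA
    have h2 := (mem_filter.1 (mem_sdiff.1 hA).1).2
    have h3 : #(N \ A) ≤ #N := card_le_card sdiff_subset
    have h4 := three_le h sdiff_subset h2
    rw [mem_Ioc]
    omega
  rw [← Finset.sum_fiberwise_of_maps_to h1]
  have hN := four_le h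
  calc ∑ s ∈ Ioc 2 #N, ∑ A ∈ (big F N w \ rep F N w).filter (fun A => #(N \ A) = s), wt N w A
      ≤ ∑ _s ∈ Ioc 2 #N, ∑ i ∈ N, w i := by
        refine Finset.sum_le_sum fun M _ => cs N w (fun i hi => (h.pos i hi).le) _ ?_
        intro A hA B hB hAB
        obtain ⟨hA1, hA2⟩ := mem_filter.1 hA
        obtain ⟨hB1, hB2⟩ := mem_filter.1 hB
        exact inc4 h (mem_sdiff.1 hA1).1 (mem_sdiff.1 hB1).1
          (nonrep_inc hA1 (mem_sdiff.1 hB1).1 hAB (hA2.trans hB2.symm))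
          (nonrep_inc hB1 (mem_sdiff.1 hA1).1 hAB.symm (hB2.trans hA2.symm))
    _ = ((#N : ℝ) - 2) * ∑ i ∈ N, w i := by
        rw [Finset.sum_const, nsmul_eq_mul, Nat.card_Ioc, Nat.cast_sub (by omega)]
        push_cast
        ring

lemma spec_sub (h : Setup F N w) : spec F N ⊆ F \ big F N w := by
  classical
  have h0 := h.tot
  refine union_subset (insert_subset ?_ ?_) ?_
  · refine mem_sdiff.2 ⟨h.top_mem, fun hc => ?_⟩
    have := (mem_filter.1 hc).2
    rw [Finset.sdiff_eq_empty_iff_subset.2 h.sub, Finset.sum_empty] at this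
    linarith
  · intro A hA
    obtain ⟨hAF, hNA, _⟩ := mem_filter.1 hA
    refine mem_sdiff.2 ⟨hAF, fun hc => ?_⟩
    have := (mem_filter.1 hc).2
    rw [Finset.sdiff_eq_empty_iff_subset.2 hNA, Finset.sum_empty] at this
    linarith
  · intro A hA
    obtain ⟨i, hi, rfl⟩ := mem_image.1 hA
    refine mem_sdiff.2 ⟨h.mx_mem _, fun hc => ?_⟩
    have := (mem_filter.1 hc).2
    rw [h.sdiff_mx hi, Finset.sum_singleton] at this
    have := h.quarter i hi
    linarith

lemma mx_inj (h : Setup F N w) : Set.InjOn (mx F) (N : Set α) := by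
  intro i hi j hj hij
  have h1 := h.sdiff_mx (mem_coe.1 hi)
  have h2 := h.sdiff_mx (mem_coe.1 hj)
  rw [hij, h2] at h1
  exact (singleton_injective h1).symm

lemma spec_sum (h : Setup F N w) :
    ∑ A ∈ spec F N, wt N w A = -(#(full F N) + #N - 1 : ℝ) * ∑ i ∈ N, w i := by
  classical
  have htf : F.sup id ∉ full F N := fun hc => (mem_filter.1 hc).2.2 rfl
  have hmd : Disjoint (insert (F.sup id) (full F N)) (N.image (mx F)) := by
    rw [Finset.disjoint_left]
    intro A hA hA'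
    obtain ⟨i, hi, rfl⟩ := mem_image.1 hA'
    have h1 : N ⊆ mx F i := by
      rcases mem_insert.1 hA with h2 | h2
      · rw [h2]; exact h.sub
      · exact (mem_filter.1 h2).2.1
    exact notMem_mx F i (h1 hi)
  unfold spec
  rw [Finset.sum_union hmd, Finset.sum_insert htf, Finset.sum_image (mx_inj h)]
  have h3 : wt N w (F.sup id) = -∑ i ∈ N, w i := by
    unfold wt
    rw [Finset.sdiff_eq_empty_iff_subset.2 h.sub]
    simp
  have h4 : ∑ A ∈ full F N, wt N w A = -(#(full F N) * ∑ i ∈ N, w i) := by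
    rw [Finset.sum_congr rfl (g := fun _ => -(∑ i ∈ N, w i))]
    · rw [Finset.sum_const, nsmul_eq_mul]; ring
    · intro A hA
      unfold wt
      rw [Finset.sdiff_eq_empty_iff_subset.2 (mem_filter.1 hA).2.1]
      simp
  have h5 : ∑ i ∈ N, wt N w (mx F i) = (2 - #N) * ∑ i ∈ N, w i := by
    rw [Finset.sum_congr rfl (g := fun i => (2 * w i - ∑ i ∈ N, w i))]
    · rw [Finset.sum_sub_distrib, Finset.sum_const, nsmul_eq_mul, ← Finset.mul_sum]
      ring
    · intro i hi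
      unfold wt
      rw [h.sdiff_mx hi, Finset.sum_singleton]
  rw [h3, h4, h5]
  ring

lemma small_sum (h : Setup F N w) :
    ∑ A ∈ F \ big F N w, wt N w A ≤ -(#(full F N) + #N - 1 : ℝ) * ∑ i ∈ N, w i := by
  classical
  rw [← Finset.sum_sdiff (spec_sub h), spec_sum h]
  have h1 : ∑ A ∈ (F \ big F N w) \ spec F N, wt N w A ≤ 0 := by
    refine Finset.sum_nonpos fun A hA => ?_
    obtain ⟨hAF, hAb⟩ := mem_sdiff.1 (mem_sdiff.1 hA).1
    have : ¬ ∑ i ∈ N, w i < 2 * ∑ i ∈ N \ A, w i := fun hc => hAb (mem_filter.2 ⟨hAF, hc⟩)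
    unfold wt
    linarith
  linarith

/-- the inequality -/
theorem total (h : Setup F N w) : ∑ A ∈ F, wt N w A < 0 := by
  classical
  have hb : big F N w ⊆ F := filter_subset _ _
  have hr : rep F N w ⊆ big F N w := filter_subset _ _
  rw [← Finset.sum_sdiff hb, ← Finset.sum_sdiff hr]
  have h1 := rep_sum h
  have h2 := nonrep_sum h
  have h3 := small_sum h
  have h4 := h.tot
  nlinarith

lemma wt_sum (F : Finset (Finset α)) (N : Finset α) (w : α → ℝ) :
    ∑ A ∈ F, wt N w A = ∑ i ∈ N, w i * ((#F : ℝ) - 2 * #(F.filter fun A => i ∈ A)) := by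
  classical
  have h1 : ∑ A ∈ F, ∑ i ∈ N \ A, w i = ∑ i ∈ N, w i * #(F.filter fun A => i ∉ A) := by
    have h2 : ∀ A ∈ F, ∑ i ∈ N \ A, w i = ∑ i ∈ N, if i ∉ A then w i else 0 := by
      intro A _
      rw [← Finset.filter_notMem_eq_sdiff, Finset.sum_filter]
    rw [Finset.sum_congr rfl h2, Finset.sum_comm]
    refine Finset.sum_congr rfl fun i _ => ?_
    rw [← Finset.sum_filter, Finset.sum_const, nsmul_eq_mul]
    ring
  have h3 : ∀ i ∈ N, w i * (#(F.filter fun A => i ∉ A) : ℝ) =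
      w i * ((#F : ℝ) - #(F.filter fun A => i ∈ A)) := by
    intro i _
    have := Finset.card_filter_add_card_filter_not (s := F) (fun A => i ∈ A)
    have h4 : (#F : ℝ) = #(F.filter fun A => i ∈ A) + #(F.filter fun A => i ∉ A) := by
      exact_mod_cast this.symm
    rw [h4]
    ring
  unfold wt
  rw [Finset.sum_sub_distrib, ← Finset.mul_sum, h1, Finset.sum_congr rfl h3, Finset.sum_const,
    nsmul_eq_mul, Finset.mul_sum, Finset.mul_sum, ← Finset.sum_sub_distrib]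
  refine Finset.sum_congr rfl fun i _ => ?_
  ring

end Pool.Agent.Y85.UT.W
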